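import Mathlib

set_option autoImplicit false

namespace Pool.Agent.LibPSP

/-- the periodic shadowing property of an invertible bounded operator -/
def PSP {𝕜 X : Type*} [RCLike 𝕜] [NormedAddCommGroup X] [NormedSpace 𝕜 X]
    (T : X ≃L[𝕜] X) : Prop :=
  ∀ ε : ℝ, 0 < ε → ∃ δ : ℝ, 0 < δ ∧ ∀ x : ℤ → X,
    (∃ q : ℕ, 0 < q ∧ ∀ j, x (j + q) = x j) → (∀ j, ‖T (x j) - x (j + 1)‖ < δ) →
    ∃ z : X, (∃ q : ℕ, 0 < q ∧ (T ^ q) z = z) ∧ ∀ j : ℤ, ‖x j - (T ^ j) z‖ < ε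

/-- products over `k` consecutive terms decay exponentially in `k`, uniformly in the position -/
def UnifContr (a : ℕ → ℝ) : Prop :=
  ∃ C r : ℝ, 0 < r ∧ r < 1 ∧ ∀ n k : ℕ, ∏ i ∈ Finset.range k, a (n + i) ≤ C * r ^ k

/-- each half of the weight sequence is uniformly contracting or uniformly expanding -/
def HalfHyperbolic {𝕜 : Type*} [RCLike 𝕜] (w : ℤ → 𝕜) : Prop :=
  (UnifContr (fun n => ‖w (n + 1)‖) ∨ UnifContr (fun n => ‖w (n + 1)‖⁻¹)) ∧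
  (UnifContr (fun n => ‖w (-n)‖) ∨ UnifContr (fun n => ‖w (-n)‖⁻¹))

end Pool.Agent.LibPSP
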