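import Pool.Agent.LibPSP.Defs

set_option autoImplicit false
open Filter Topology Set

namespace Pool.Agent.LibPSP

/-- `n` is an approximate local minimum of `S` (slope `η`, window `M`) -/
def ApproxMin (S : ℕ → ℝ) (η : ℝ) (M n : ℕ) : Prop :=
  ∀ m : ℕ, m ≤ n + M → n ≤ m + M → S n - η * |(n : ℝ) - m| ≤ S m

theorem lip_le {S : ℕ → ℝ} {A : ℝ} (hA : ∀ n, |S (n + 1) - S n| ≤ A) (n k : ℕ) :
    |S (n + k) - S n| ≤ A * k := by
  induction k with
  | zero => simp
  | succ k ih =>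
    have h1 := hA (n + k)
    have h2 : |S (n + (k + 1)) - S n| ≤ |S (n + k + 1) - S (n + k)| + |S (n + k) - S n| := by
      have : S (n + (k + 1)) - S n = (S (n + k + 1) - S (n + k)) + (S (n + k) - S n) := by
        rw [← add_assoc]; ring
      rw [this]
      exact abs_add_le _ _
    push_cast
    nlinarith

/-- dichotomy: either there are approximate local minima arbitrarily far out,
or `S` is uniformly decreasing, or uniformly increasing. -/
theorem dichotomy (S : ℕ → ℝ) (A : ℝ) (hA : ∀ n, |S (n + 1) - S n| ≤ A) (η : ℝ) (hη : 0 < η)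
    (M n₁ : ℕ) (hno : ∀ n, n₁ + M ≤ n → ¬ ApproxMin S η M n) :
    (∃ C : ℝ, ∀ k N : ℕ, S (k + N) - S k ≤ C - η * N) ∨
    (∃ C : ℝ, ∀ k N : ℕ, η * N - C ≤ S (k + N) - S k) := by
  classical
  have hA0 : 0 ≤ A := (abs_nonneg _).trans (hA 0)
  let D : ℕ → Prop := fun n => ∃ m, n < m ∧ m ≤ n + M ∧ S m < S n - η * ((m : ℝ) - n)
  let I : ℕ → Prop := fun n => ∃ m, m < n ∧ n ≤ m + M ∧ S m < S n - η * ((n : ℝ) - m)
  have hDI : ∀ n, n₁ + M ≤ n → D n ∨ I n := by
    intro n hn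
    have h := hno n hn
    simp only [ApproxMin, not_forall, not_le] at h
    obtain ⟨m, h1, h2, h3⟩ := h
    rcases lt_trichotomy m n with hmn | hmn | hmn
    · right
      have : (m : ℝ) < n := by exact_mod_cast hmn
      rw [abs_of_pos (by linarith)] at h3
      exact ⟨m, hmn, h2, h3⟩
    · subst hmn
      simp at h3
    · left
      have : (n : ℝ) < m := by exact_mod_cast hmn
      rw [abs_of_neg (by linarith)] at h3
      exact ⟨m, hmn, h1, by linarith⟩
  -- extension from a tail to all indices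
  have tail1 : ∀ (n₂ : ℕ) (C : ℝ), (∀ k N : ℕ, n₂ ≤ k → S (k + N) - S k ≤ C - η * N) →
      ∃ C : ℝ, ∀ k N : ℕ, S (k + N) - S k ≤ C - η * N := by
    intro n₂ C h
    refine ⟨|C| + (A + η) * n₂, fun k N => ?_⟩
    by_cases hk : n₂ ≤ k
    · have h1 := h k N hk
      have h2 : 0 ≤ (A + η) * n₂ := by positivity
      have h3 := le_abs_self C
      linarith
    · push Not at hk
      obtain ⟨d, rfl⟩ := Nat.exists_eq_add_of_lt hk
      by_cases hN : k + N ≤ k + d + 1
      · have h1 := (abs_le.mp (lip_le hA k N)).2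
        have h2 : (N : ℝ) ≤ d + 1 := by exact_mod_cast (by omega : N ≤ d + 1)
        have h3 := abs_nonneg C
        push_cast
        nlinarith [Nat.cast_nonneg (α := ℝ) k, Nat.cast_nonneg (α := ℝ) N]
      · push Not at hN
        obtain ⟨e, he⟩ := Nat.exists_eq_add_of_lt hN
        have h1 := h (k + d + 1) (e + 1) le_rfl
        have h2 := (abs_le.mp (lip_le hA k (d + 1))).2
        rw [show k + N = k + d + 1 + (e + 1) by omega]
        have h3 : (N : ℝ) = d + 1 + (e + 1) := by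
          exact_mod_cast (by omega : N = d + 1 + (e + 1))
        rw [h3]
        have h4 := le_abs_self C
        rw [← add_assoc] at h2
        push_cast at *
        nlinarith [Nat.cast_nonneg (α := ℝ) k]
  have tail2 : ∀ (n₂ : ℕ) (C : ℝ), (∀ k N : ℕ, n₂ ≤ k → η * N - C ≤ S (k + N) - S k) →
      ∃ C : ℝ, ∀ k N : ℕ, η * N - C ≤ S (k + N) - S k := by
    intro n₂ C h
    refine ⟨|C| + (A + η) * n₂, fun k N => ?_⟩
    by_cases hk : n₂ ≤ k
    · have h1 := h k N hk
      have h2 : 0 ≤ (A + η) * n₂ := by positivity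
      have h3 := le_abs_self C
      linarith
    · push Not at hk
      obtain ⟨d, rfl⟩ := Nat.exists_eq_add_of_lt hk
      by_cases hN : k + N ≤ k + d + 1
      · have h1 := (abs_le.mp (lip_le hA k N)).1
        have h2 : (N : ℝ) ≤ d + 1 := by exact_mod_cast (by omega : N ≤ d + 1)
        have h3 := abs_nonneg C
        push_cast
        nlinarith [Nat.cast_nonneg (α := ℝ) k, Nat.cast_nonneg (α := ℝ) N]
      · push Not at hN
        obtain ⟨e, he⟩ := Nat.exists_eq_add_of_lt hN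
        have h1 := h (k + d + 1) (e + 1) le_rfl
        have h2 := (abs_le.mp (lip_le hA k (d + 1))).1
        rw [show k + N = k + d + 1 + (e + 1) by omega]
        have h3 : (N : ℝ) = d + 1 + (e + 1) := by
          exact_mod_cast (by omega : N = d + 1 + (e + 1))
        rw [h3]
        have h4 := le_abs_self C
        rw [← add_assoc] at h2
        push_cast at *
        nlinarith [Nat.cast_nonneg (α := ℝ) k]
  by_cases hcase : ∃ n, n₁ + M ≤ n ∧ D n ∧ ¬ I n
  · left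
    obtain ⟨g₀, hg₀, hg₀D, hg₀I⟩ := hcase
    -- next good point
    have next : ∀ n, n₁ + M ≤ n → D n → ¬ I n →
        ∃ m, n < m ∧ m ≤ n + M ∧ S m ≤ S n - η * ((m : ℝ) - n) ∧ D m ∧ ¬ I m := by
      intro n hn hD hI
      obtain ⟨m, hm, hmin⟩ := Finset.exists_min_image (Finset.Icc n (n + M))
        (fun m => S m + η * m) ⟨n, Finset.mem_Icc.mpr ⟨le_rfl, by omega⟩⟩
      rw [Finset.mem_Icc] at hm
      obtain ⟨m', hm'1, hm'2, hm'3⟩ := hD
      have h1 := hmin m' (Finset.mem_Icc.mpr ⟨hm'1.le, hm'2⟩)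
      have h2 : S m + η * m < S n + η * n := by linarith
      have hne : n ≠ m := by rintro rfl; exact lt_irrefl _ h2
      have hlt : n < m := lt_of_le_of_ne hm.1 hne
      have hmI : ¬ I m := by
        rintro ⟨l, hl1, hl2, hl3⟩
        by_cases hln : n ≤ l
        · have h3 := hmin l (Finset.mem_Icc.mpr ⟨hln, by omega⟩)
          have h4 : (l : ℝ) < m := by exact_mod_cast hl1
          have h5 : 0 < η * ((m : ℝ) - l) := mul_pos hη (by linarith)
          nlinarith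
        · push Not at hln
          apply hI
          refine ⟨l, hln, by omega, ?_⟩
          have h4 : (n : ℝ) < m := by exact_mod_cast hlt
          have h5 : 0 < η * ((m : ℝ) - n) := mul_pos hη (by linarith)
          nlinarith
      refine ⟨m, hlt, hm.2, by linarith, ?_, hmI⟩
      rcases hDI m (by omega) with h | h
      · exact h
      · exact absurd h hmI
    have hMpos : 0 < M := by
      obtain ⟨m, h1, h2, -⟩ := hg₀D
      omega
    have chain : ∀ N n, n₁ + M ≤ n → D n → ¬ I n →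
        ∃ m, n ≤ m ∧ m ≤ n + N ∧ n + N < m + M ∧ S m ≤ S n - η * ((m : ℝ) - n) ∧ D m ∧ ¬ I m := by
      intro N
      induction N with
      | zero =>
        intro n hn hD hI
        exact ⟨n, le_rfl, by omega, by omega, by simp, hD, hI⟩
      | succ N ih =>
        intro n hn hD hI
        obtain ⟨m, h1, h2, h3, h4, h5, h6⟩ := ih n hn hD hI
        by_cases hc : n + (N + 1) < m + M
        · exact ⟨m, h1, by omega, hc, h4, h5, h6⟩
        · obtain ⟨m', h1', h2', h3', h4', h5'⟩ := next m (by omega) h5 h6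
          refine ⟨m', by omega, by omega, by omega, ?_, h4', h5'⟩
          linarith
    refine tail1 g₀ (2 * A * M + η * M) fun k N hk => ?_
    obtain ⟨d, rfl⟩ := Nat.exists_eq_add_of_le hk
    obtain ⟨g, h1, h2, h3, h4, h5, h6⟩ := chain d g₀ hg₀ hg₀D hg₀I
    obtain ⟨e, he⟩ := Nat.exists_eq_add_of_le h2
    obtain ⟨g', h1', h2', h3', h4', -, -⟩ := chain (e + N) g (by omega) h5 h6
    obtain ⟨e', he'⟩ := Nat.exists_eq_add_of_le h2'
    have ha := (abs_le.mp (lip_le hA g e)).1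
    have hb := (abs_le.mp (lip_le hA g' e')).2
    rw [he]
    rw [← he'] at hb
    rw [show g + e + N = g + (e + N) by omega]
    have hc1 : (e : ℝ) ≤ M := by exact_mod_cast (by omega : e ≤ M)
    have hc2 : (e' : ℝ) ≤ M := by exact_mod_cast (by omega : e' ≤ M)
    have hc3 : (N : ℝ) ≤ (g' : ℝ) - g + M := by
      have : (N : ℝ) + g ≤ g' + M := by exact_mod_cast (by omega : N + g ≤ g' + M)
      linarith
    nlinarith
  · right
    push Not at hcase
    have hI : ∀ n, n₁ + M ≤ n → I n := by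
      intro n hn
      rcases hDI n hn with h | h
      · exact hcase n hn h
      · exact h
    have chain : ∀ k, n₁ + M ≤ k → ∀ n, k ≤ n →
        ∃ g, g ≤ k ∧ k ≤ g + M ∧ S g ≤ S n - η * ((n : ℝ) - g) := by
      intro k hk n
      induction n using Nat.strong_induction_on with
      | _ n ih =>
        intro hkn
        rcases Nat.eq_or_lt_of_le hkn with h | h
        · subst h
          exact ⟨k, le_rfl, by omega, by simp⟩
        · obtain ⟨m, h1, h2, h3⟩ := hI n (by omega)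
          by_cases hmk : m ≤ k
          · exact ⟨m, hmk, by omega, h3.le⟩
          · obtain ⟨g, hg1, hg2, hg3⟩ := ih m h1 (by omega)
            exact ⟨g, hg1, hg2, by linarith⟩
    refine tail2 (n₁ + M) (A * M) fun k N hk => ?_
    obtain ⟨g, h1, h2, h3⟩ := chain k hk (k + N) (by omega)
    obtain ⟨e, rfl⟩ := Nat.exists_eq_add_of_le h1
    have ha := (abs_le.mp (lip_le hA g e)).2
    have hc1 : (e : ℝ) ≤ M := by exact_mod_cast (by omega : e ≤ M)
    push_cast at h3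
    nlinarith [Nat.cast_nonneg (α := ℝ) e, Nat.cast_nonneg (α := ℝ) N]

section general

variable {𝕜 X : Type*} [RCLike 𝕜] [NormedAddCommGroup X] [NormedSpace 𝕜 X]

omit [NormedAddCommGroup X] in
theorem periodic_int {u : ℤ → X} {q : ℕ} (h : ∀ j, u (j + q) = u j) (j : ℤ) (m : ℤ) :
    u (j + m * q) = u j := by
  have h1 : Function.Periodic u (q : ℤ) := h
  exact h1.int_mul m j

theorem periodic_bdd {u : ℤ → X} {q : ℕ} (hq : 0 < q) (h : ∀ j, u (j + q) = u j) :
    ∃ M, ∀ j, ‖u j‖ ≤ M := by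
  refine ⟨∑ i ∈ Finset.range q, ‖u i‖, fun j => ?_⟩
  have h1 : u j = u (j % q) := by
    have := periodic_int h (j % q) (j / q)
    rw [← this]
    congr 1
    rw [mul_comm]
    exact (Int.emod_add_mul_ediv j q).symm
  have hq' : (q : ℤ) ≠ 0 := by exact_mod_cast hq.ne'
  have h2 : 0 ≤ j % q := Int.emod_nonneg _ hq'
  have h3 : j % q < q := Int.emod_lt_of_pos _ (by exact_mod_cast hq)
  obtain ⟨m, hm⟩ := Int.eq_ofNat_of_zero_le h2
  rw [h1, hm]
  exact Finset.single_le_sum (f := fun i : ℕ => ‖u i‖) (fun i _ => norm_nonneg _)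
    (Finset.mem_range.mpr (by exact_mod_cast (hm ▸ h3 : (m : ℤ) < q)))

/-- a priori bound for bounded solutions of `u (j+1) = L (u j) + f j` -/
theorem apriori (L : X →L[𝕜] X) {C r : ℝ} (hr0 : 0 < r) (hr1 : r < 1)
    (hL : ∀ (k : ℕ) v, ‖(L ^ k) v‖ ≤ C * r ^ k * ‖v‖) (u f : ℤ → X)
    (hu : ∀ j, u (j + 1) = L (u j) + f j) {M F : ℝ} (hM : ∀ j, ‖u j‖ ≤ M)
    (hF : ∀ j, ‖f j‖ ≤ F) (hC : 0 ≤ C) (j : ℤ) : ‖u j‖ ≤ C / (1 - r) * F := by
  have hF0 : 0 ≤ F := (norm_nonneg _).trans (hF 0)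
  have h1 : ∀ (k : ℕ) (j : ℤ), u j = (L ^ k) (u (j - k)) +
      ∑ i ∈ Finset.range k, (L ^ i) (f (j - 1 - i)) := by
    intro k
    induction k with
    | zero => intro j; simp
    | succ k ih =>
      intro j
      rw [ih j, Finset.sum_range_succ]
      have h2 := hu (j - k - 1)
      have h3 : j - (k : ℤ) - 1 + 1 = j - k := by ring
      rw [h3] at h2
      rw [h2, map_add]
      have h4 : (L ^ k) (L (u (j - k - 1))) = (L ^ (k + 1)) (u (j - ((k + 1 : ℕ) : ℤ))) := by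
        rw [pow_succ]
        change _ = (L ^ k) (L _)
        congr 3
        push_cast
        ring
      rw [h4]
      have h5 : j - (k : ℤ) - 1 = j - 1 - k := by ring
      rw [h5]
      abel
  have h2 : ∀ k : ℕ, ‖u j‖ ≤ C * r ^ k * M + C / (1 - r) * F := by
    intro k
    rw [h1 k j]
    refine (norm_add_le _ _).trans ?_
    refine add_le_add ?_ ?_
    · refine (hL k _).trans ?_
      exact mul_le_mul_of_nonneg_left (hM _) (by positivity)
    · refine (norm_sum_le _ _).trans ?_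
      have h3 : ∀ i ∈ Finset.range k, ‖(L ^ i) (f (j - 1 - i))‖ ≤ C * F * r ^ i := by
        intro i _
        refine (hL i _).trans ?_
        have := mul_le_mul_of_nonneg_left (hF (j - 1 - i)) (by positivity : 0 ≤ C * r ^ i)
        calc C * r ^ i * ‖f (j - 1 - i)‖ ≤ C * r ^ i * F := this
          _ = C * F * r ^ i := by ring
      refine (Finset.sum_le_sum h3).trans ?_
      rw [← Finset.mul_sum]
      have h4 : ∑ i ∈ Finset.range k, r ^ i ≤ 1 / (1 - r) := by
        rw [one_div, ← tsum_geometric_of_lt_one hr0.le hr1]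
        exact (summable_geometric_of_lt_one hr0.le hr1).sum_le_tsum _ (fun i _ => by positivity)
      calc C * F * ∑ i ∈ Finset.range k, r ^ i ≤ C * F * (1 / (1 - r)) :=
            mul_le_mul_of_nonneg_left h4 (by positivity)
        _ = C / (1 - r) * F := by ring
  have h3 : Tendsto (fun k : ℕ => C * r ^ k * M + C / (1 - r) * F) atTop
      (𝓝 (C * 0 * M + C / (1 - r) * F)) := by
    refine Tendsto.add_const _ (Tendsto.mul_const _ (Tendsto.const_mul _ ?_))
    exact tendsto_pow_atTop_nhds_zero_of_lt_one hr0.le hr1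
  have h4 := ge_of_tendsto' h3 h2
  simpa using h4

/-- existence of a periodic solution -/
theorem exists_sol [CompleteSpace X] (L : X →L[𝕜] X) {C r : ℝ} (hr0 : 0 < r) (hr1 : r < 1)
    (hL : ∀ (k : ℕ) v, ‖(L ^ k) v‖ ≤ C * r ^ k * ‖v‖) (f : ℤ → X) {F : ℝ}
    (hF : ∀ j, ‖f j‖ ≤ F) (hC : 0 ≤ C) (q : ℕ) (hf : ∀ j, f (j + q) = f j) :
    ∃ u : ℤ → X, (∀ j, u (j + 1) = L (u j) + f j) ∧ (∀ j, u (j + q) = u j) := by
  have hF0 : 0 ≤ F := (norm_nonneg _).trans (hF 0)
  have hs : ∀ j : ℤ, Summable fun i : ℕ => (L ^ i) (f (j - 1 - i)) := by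
    intro j
    refine Summable.of_norm_bounded (g := fun i : ℕ => C * F * r ^ i)
      ((summable_geometric_of_lt_one hr0.le hr1).mul_left _) ?_
    intro i
    refine (hL i _).trans ?_
    have := mul_le_mul_of_nonneg_left (hF (j - 1 - i)) (by positivity : 0 ≤ C * r ^ i)
    calc C * r ^ i * ‖f (j - 1 - i)‖ ≤ C * r ^ i * F := this
      _ = C * F * r ^ i := by ring
  refine ⟨fun j => ∑' i : ℕ, (L ^ i) (f (j - 1 - i)), fun j => ?_, fun j => ?_⟩
  · simp only
    rw [(hs (j + 1)).tsum_eq_zero_add, L.map_tsum (hs j)]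
    rw [add_comm]
    congr 1
    · refine tsum_congr fun i => ?_
      rw [pow_succ']
      change L ((L ^ i) _) = L ((L ^ i) _)
      congr 3
      push_cast
      ring
    · simp
  · simp only
    refine tsum_congr fun i => ?_
    congr 1
    rw [← hf (j - 1 - i)]
    congr 1
    ring

end general

/-- a solid shift-invariant space of two-sided scalar sequences -/
structure SeqSp (𝕜 X : Type*) [RCLike 𝕜] [NormedAddCommGroup X] [NormedSpace 𝕜 X] where
  co : X →ₗ[𝕜] (ℤ → 𝕜)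
  inj : Function.Injective co
  coord_le : ∀ x n, ‖co x n‖ ≤ ‖x‖
  solid : ∀ (x : X) (y : ℤ → 𝕜), (∀ n, ‖y n‖ ≤ ‖co x n‖) → ∃ y' : X, co y' = y ∧ ‖y'‖ ≤ ‖x‖
  shift : ∀ (x : X) (k : ℤ), ∃ y : X, (∀ n, co y n = co x (n + k)) ∧ ‖y‖ ≤ ‖x‖
  single : ∀ n : ℤ, ∃ e : X, co e = Pi.single n 1 ∧ ‖e‖ ≤ 1
  tends : ∀ x, Tendsto (co x) cofinite (𝓝 0)

namespace SeqSp

variable {𝕜 X : Type*} [RCLike 𝕜] [NormedAddCommGroup X] [NormedSpace 𝕜 X] (E : SeqSp 𝕜 X)

theorem norm_le {c : ℝ} (hc : 0 ≤ c) (x y : X) (k : ℤ)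
    (h : ∀ n, ‖E.co y n‖ ≤ c * ‖E.co x (n + k)‖) : ‖y‖ ≤ c * ‖x‖ := by
  obtain ⟨x', hx', hx'n⟩ := E.shift x k
  obtain ⟨y', hy', hy'n⟩ := E.solid ((c : 𝕜) • x') (E.co y) (by
    intro n
    rw [map_smul, Pi.smul_apply, norm_smul, RCLike.norm_ofReal, abs_of_nonneg hc, hx']
    exact h n)
  have : y' = y := E.inj hy'
  rw [← this]
  refine hy'n.trans ?_
  rw [norm_smul, RCLike.norm_ofReal, abs_of_nonneg hc]
  exact mul_le_mul_of_nonneg_left hx'n hc

theorem exists_op (m : ℤ → 𝕜) {C : ℝ} (hm : ∀ n, ‖m n‖ ≤ C) (k : ℤ) :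
    ∃ D : X →L[𝕜] X, ∀ x n, E.co (D x) n = m n * E.co x (n + k) := by
  have hC : 0 ≤ C := (norm_nonneg _).trans (hm 0)
  have h1 : ∀ x : X, ∃ y : X, ∀ n, E.co y n = m n * E.co x (n + k) := by
    intro x
    obtain ⟨x', hx', -⟩ := E.shift x k
    obtain ⟨y', hy', -⟩ := E.solid ((C : 𝕜) • x') (fun n => m n * E.co x (n + k)) (by
      intro n
      rw [map_smul, Pi.smul_apply, norm_smul, norm_mul, RCLike.norm_ofReal, abs_of_nonneg hC, hx']
      exact mul_le_mul_of_nonneg_right (hm n) (norm_nonneg _))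
    exact ⟨y', fun n => by rw [hy']⟩
  choose D hD using h1
  let D' : X →ₗ[𝕜] X :=
    { toFun := D
      map_add' := by
        intro x y
        apply E.inj
        ext n
        rw [map_add, Pi.add_apply, hD, hD, hD, map_add, Pi.add_apply, mul_add]
      map_smul' := by
        intro c x
        apply E.inj
        ext n
        rw [RingHom.id_apply, map_smul, Pi.smul_apply, hD, hD, map_smul, Pi.smul_apply,
          smul_eq_mul, smul_eq_mul]
        ring }
  refine ⟨D'.mkContinuous C ?_, fun x n => hD x n⟩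
  intro x
  refine E.norm_le hC x _ k ?_
  intro n
  change ‖E.co (D x) n‖ ≤ _
  rw [hD, norm_mul]
  exact mul_le_mul_of_nonneg_right (hm n) (norm_nonneg _)

theorem pow_left (D : X →L[𝕜] X) (m : ℤ → 𝕜)
    (hD : ∀ x n, E.co (D x) n = m n * E.co x (n + 1)) (k : ℕ) :
    ∀ x n, E.co ((D ^ k) x) n = (∏ i ∈ Finset.range k, m (n + i)) * E.co x (n + k) := by
  induction k with
  | zero => intro x n; simp
  | succ k ih =>
    intro x n
    rw [pow_succ]
    change E.co ((D ^ k) (D x)) n = _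
    rw [ih, hD, Finset.prod_range_succ, mul_assoc]
    congr 2
    push_cast
    rw [add_assoc]

theorem pow_right (D : X →L[𝕜] X) (m : ℤ → 𝕜)
    (hD : ∀ x n, E.co (D x) n = m n * E.co x (n + (-1))) (k : ℕ) :
    ∀ x n, E.co ((D ^ k) x) n = (∏ i ∈ Finset.range k, m (n - i)) * E.co x (n + (-(k : ℤ))) := by
  induction k with
  | zero => intro x n; simp
  | succ k ih =>
    intro x n
    rw [pow_succ]
    change E.co ((D ^ k) (D x)) n = _
    have h1 : n + -(k : ℤ) + -1 = n + -((k + 1 : ℕ) : ℤ) := by push_cast; ring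
    rw [ih, hD, Finset.prod_range_succ, mul_assoc, h1]
    rfl

theorem pow_left_bound (D : X →L[𝕜] X) (m : ℤ → 𝕜)
    (hD : ∀ x n, E.co (D x) n = m n * E.co x (n + 1)) {C r : ℝ} (hC : 0 ≤ C) (hr : 0 < r)
    (h : ∀ (n : ℤ) (k : ℕ), ∏ i ∈ Finset.range k, ‖m (n + i)‖ ≤ C * r ^ k) (k : ℕ) (x : X) :
    ‖(D ^ k) x‖ ≤ C * r ^ k * ‖x‖ := by
  refine E.norm_le (by positivity) x _ k ?_
  intro n
  rw [E.pow_left D m hD, norm_mul, norm_prod]
  exact mul_le_mul_of_nonneg_right (h n k) (norm_nonneg _)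

theorem pow_right_bound (D : X →L[𝕜] X) (m : ℤ → 𝕜)
    (hD : ∀ x n, E.co (D x) n = m n * E.co x (n + (-1))) {C r : ℝ} (hC : 0 ≤ C) (hr : 0 < r)
    (h : ∀ (n : ℤ) (k : ℕ), ∏ i ∈ Finset.range k, ‖m (n - i)‖ ≤ C * r ^ k) (k : ℕ) (x : X) :
    ‖(D ^ k) x‖ ≤ C * r ^ k * ‖x‖ := by
  refine E.norm_le (by positivity) x _ (-(k : ℤ)) ?_
  intro n
  rw [E.pow_right D m hD, norm_mul, norm_prod]
  exact mul_le_mul_of_nonneg_right (h n k) (norm_nonneg _)

/-- the hypotheses on the weighted shift -/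
structure IsShift (w : ℤ → 𝕜) (T : X ≃L[𝕜] X) (B b : ℝ) : Prop where
  bdd : ∀ n, ‖w n‖ ≤ B
  low : ∀ n, b ≤ ‖w n‖
  pos : 0 < b
  act : ∀ x n, E.co (T x) n = w (n + 1) * E.co x (n + 1)

namespace IsShift

variable {E} {w : ℤ → 𝕜} {T : X ≃L[𝕜] X} {B b : ℝ} (h : E.IsShift w T B b)
include h

theorem ne (n : ℤ) : w n ≠ 0 := by
  intro h0
  have h1 := h.low n
  rw [h0, norm_zero] at h1
  exact absurd h.pos (not_lt.mpr h1)

theorem Bpos : 0 < B := lt_of_lt_of_le h.pos ((h.low 0).trans (h.bdd 0))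

theorem symm_act (x : X) (n : ℤ) : E.co (T.symm x) n = (w n)⁻¹ * E.co x (n + (-1)) := by
  have h1 := h.act (T.symm x) (n + (-1))
  rw [T.apply_symm_apply] at h1
  rw [h1]
  have h2 : n + -1 + 1 = n := by ring
  rw [h2, ← mul_assoc, inv_mul_cancel₀ (h.ne n), one_mul]

theorem inv_le (n : ℤ) : ‖(w n)⁻¹‖ ≤ b⁻¹ := by
  rw [norm_inv]
  exact inv_anti₀ h.pos (h.low n)

end IsShift

end SeqSp

theorem UnifContr.one_le {a : ℕ → ℝ} {C r : ℝ}
    (h : ∀ n k : ℕ, ∏ i ∈ Finset.range k, a (n + i) ≤ C * r ^ k) : 1 ≤ C := by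
  simpa using h 0 0

section products

variable {𝕜 : Type*} [RCLike 𝕜] {w : ℤ → 𝕜}

theorem prodA {C r : ℝ} (hr : 0 < r)
    (h : ∀ n k : ℕ, ∏ i ∈ Finset.range k, ‖w (((n + i : ℕ) : ℤ) + 1)‖ ≤ C * r ^ k)
    (n : ℤ) (k : ℕ) :
    ∏ i ∈ Finset.range k, ‖(if 0 ≤ n + i then w (n + i + 1) else 0 : 𝕜)‖ ≤ C * r ^ k := by
  have hC : 1 ≤ C := UnifContr.one_le (a := fun n => ‖w ((n : ℤ) + 1)‖) h
  rcases le_or_gt 0 n with hn | hn
  · obtain ⟨n', rfl⟩ := Int.eq_ofNat_of_zero_le hn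
    refine le_trans (le_of_eq ?_) (h n' k)
    refine Finset.prod_congr rfl fun i _ => ?_
    rw [if_pos (by positivity)]
    push_cast
    rfl
  · rcases Nat.eq_zero_or_pos k with rfl | hk
    · simpa using hC
    · have : ∏ i ∈ Finset.range k, ‖(if 0 ≤ n + i then w (n + i + 1) else 0 : 𝕜)‖ = 0 := by
        refine Finset.prod_eq_zero (Finset.mem_range.mpr hk) ?_
        rw [if_neg (by push_cast; omega), norm_zero]
      rw [this]
      positivity

theorem prodB {C r : ℝ} (hr : 0 < r)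
    (h : ∀ n k : ℕ, ∏ i ∈ Finset.range k, ‖w (-((n + i : ℕ) : ℤ))‖ ≤ C * r ^ k)
    (n : ℤ) (k : ℕ) :
    ∏ i ∈ Finset.range k, ‖(if n + i + 1 < 0 then w (n + i + 1) else 0 : 𝕜)‖ ≤ C * r ^ k := by
  have hC : 1 ≤ C := UnifContr.one_le (a := fun n => ‖w (-(n : ℤ))‖) h
  rcases Nat.eq_zero_or_pos k with rfl | hk
  · simpa using hC
  · rcases lt_or_ge (n + k) 0 with hn | hn
    · obtain ⟨n', hn'⟩ := Int.eq_ofNat_of_zero_le (by omega : 0 ≤ -(n + k))
      refine le_trans (le_of_eq ?_) (h n' k)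
      rw [← Finset.prod_range_reflect]
      refine Finset.prod_congr rfl fun i hi => ?_
      rw [Finset.mem_range] at hi
      have h1 : ((k - 1 - i : ℕ) : ℤ) = k - 1 - i := by omega
      have h2 : n + ((k - 1 - i : ℕ) : ℤ) + 1 = -((n' + i : ℕ) : ℤ) := by
        rw [h1]; push_cast; omega
      rw [h2, if_pos (by rw [← h2, h1]; omega)]
    · have : ∏ i ∈ Finset.range k, ‖(if n + i + 1 < 0 then w (n + i + 1) else 0 : 𝕜)‖ = 0 := by
        refine Finset.prod_eq_zero (i := k - 1) (Finset.mem_range.mpr (by omega)) ?_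
        have h1 : ((k - 1 : ℕ) : ℤ) = k - 1 := by omega
        rw [if_neg (by rw [h1]; omega), norm_zero]
      rw [this]
      positivity

theorem prodC {C r : ℝ} (hr : 0 < r)
    (h : ∀ n k : ℕ, ∏ i ∈ Finset.range k, ‖w (-((n + i : ℕ) : ℤ))‖⁻¹ ≤ C * r ^ k)
    (n : ℤ) (k : ℕ) :
    ∏ i ∈ Finset.range k, ‖(if n - i < 0 then (w (n - i))⁻¹ else 0 : 𝕜)‖ ≤ C * r ^ k := by
  have hC : 1 ≤ C := UnifContr.one_le (a := fun n => ‖w (-(n : ℤ))‖⁻¹) h
  rcases le_or_gt 0 n with hn | hn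
  · rcases Nat.eq_zero_or_pos k with rfl | hk
    · simpa using hC
    · have : ∏ i ∈ Finset.range k, ‖(if n - i < 0 then (w (n - i))⁻¹ else 0 : 𝕜)‖ = 0 := by
        refine Finset.prod_eq_zero (Finset.mem_range.mpr hk) ?_
        rw [if_neg (by push_cast; omega), norm_zero]
      rw [this]
      positivity
  · obtain ⟨n', hn'⟩ := Int.eq_ofNat_of_zero_le (by omega : 0 ≤ -n)
    refine le_trans (le_of_eq ?_) (h n' k)
    refine Finset.prod_congr rfl fun i _ => ?_
    have h2 : n - i = -((n' + i : ℕ) : ℤ) := by push_cast; omega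
    rw [h2, if_pos (by rw [← h2]; omega), norm_inv]

theorem prodD {C r : ℝ} (hr : 0 < r)
    (h : ∀ n k : ℕ, ∏ i ∈ Finset.range k, ‖w (((n + i : ℕ) : ℤ) + 1)‖⁻¹ ≤ C * r ^ k)
    (n : ℤ) (k : ℕ) :
    ∏ i ∈ Finset.range k, ‖(if 1 ≤ n - i then (w (n - i))⁻¹ else 0 : 𝕜)‖ ≤ C * r ^ k := by
  have hC : 1 ≤ C := UnifContr.one_le (a := fun n => ‖w ((n : ℤ) + 1)‖⁻¹) h
  rcases Nat.eq_zero_or_pos k with rfl | hk
  · simpa using hC
  · rcases lt_or_ge (n - k) 0 with hn | hn
    · have : ∏ i ∈ Finset.range k, ‖(if 1 ≤ n - i then (w (n - i))⁻¹ else 0 : 𝕜)‖ = 0 := by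
        refine Finset.prod_eq_zero (i := k - 1) (Finset.mem_range.mpr (by omega)) ?_
        have h1 : ((k - 1 : ℕ) : ℤ) = k - 1 := by omega
        rw [if_neg (by rw [h1]; omega), norm_zero]
      rw [this]
      positivity
    · obtain ⟨n', hn'⟩ := Int.eq_ofNat_of_zero_le hn
      refine le_trans (le_of_eq ?_) (h n' k)
      rw [← Finset.prod_range_reflect]
      refine Finset.prod_congr rfl fun i hi => ?_
      rw [Finset.mem_range] at hi
      have h1 : ((k - 1 - i : ℕ) : ℤ) = k - 1 - i := by omega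
      have h2 : n - ((k - 1 - i : ℕ) : ℤ) = ((n' + i : ℕ) : ℤ) + 1 := by
        rw [h1]; push_cast; omega
      rw [h2, if_pos (by rw [← h2, h1]; omega), norm_inv]

end products

namespace SeqSp
namespace IsShift

variable {𝕜 X : Type*} [RCLike 𝕜] [NormedAddCommGroup X] [NormedSpace 𝕜 X] {E : SeqSp 𝕜 X}
variable {w : ℤ → 𝕜} {T : X ≃L[𝕜] X} {B b : ℝ} (h : E.IsShift w T B b)

/-- the projection onto the coordinates `n ≥ 0` -/
def IsP (E : SeqSp 𝕜 X) (P : X →L[𝕜] X) : Prop :=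
  ∀ x n, E.co (P x) n = if 0 ≤ n then E.co x n else 0

/-- the projection onto the coordinates `n < 0` -/
def IsQ (E : SeqSp 𝕜 X) (Q : X →L[𝕜] X) : Prop :=
  ∀ x n, E.co (Q x) n = if n < 0 then E.co x n else 0

theorem exists_P : ∃ P, IsP E P := by
  obtain ⟨P, hP⟩ := E.exists_op (fun n => if 0 ≤ n then (1 : 𝕜) else 0) (C := 1)
    (fun n => by split_ifs <;> simp) 0
  refine ⟨P, fun x n => ?_⟩
  rw [hP, add_zero]
  split_ifs <;> simp

theorem exists_Q : ∃ Q, IsQ E Q := by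
  obtain ⟨Q, hQ⟩ := E.exists_op (fun n => if n < 0 then (1 : 𝕜) else 0) (C := 1)
    (fun n => by split_ifs <;> simp) 0
  refine ⟨Q, fun x n => ?_⟩
  rw [hQ, add_zero]
  split_ifs <;> simp

theorem P_le {P : X →L[𝕜] X} (hP : IsP E P) (x : X) : ‖P x‖ ≤ ‖x‖ := by
  have := E.norm_le zero_le_one x (P x) 0 (fun n => by
    rw [hP, add_zero, one_mul]
    split_ifs
    · exact le_rfl
    · rw [norm_zero]; exact norm_nonneg _)
  simpa using this

theorem Q_le {Q : X →L[𝕜] X} (hQ : IsQ E Q) (x : X) : ‖Q x‖ ≤ ‖x‖ := by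
  have := E.norm_le zero_le_one x (Q x) 0 (fun n => by
    rw [hQ, add_zero, one_mul]
    split_ifs
    · exact le_rfl
    · rw [norm_zero]; exact norm_nonneg _)
  simpa using this

theorem PQ {P Q : X →L[𝕜] X} (hP : IsP E P) (hQ : IsQ E Q) (x : X) : P x + Q x = x := by
  apply E.inj
  ext n
  rw [map_add, Pi.add_apply, hP, hQ]
  by_cases hn : 0 ≤ n
  · rw [if_pos hn, if_neg (by omega), add_zero]
  · rw [if_neg hn, if_pos (by omega), zero_add]

include h

theorem T_le (x : X) : ‖T x‖ ≤ B * ‖x‖ := by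
  refine E.norm_le h.Bpos.le x _ 1 fun n => ?_
  rw [h.act, norm_mul]
  exact mul_le_mul_of_nonneg_right (h.bdd _) (norm_nonneg _)

theorem Tsymm_le (x : X) : ‖T.symm x‖ ≤ b⁻¹ * ‖x‖ := by
  refine E.norm_le (inv_nonneg.mpr h.pos.le) x _ (-1) fun n => ?_
  rw [h.symm_act, norm_mul]
  exact mul_le_mul_of_nonneg_right (h.inv_le _) (norm_nonneg _)

/-- the operator `P T` -/
theorem exists_LA : ∃ L : X →L[𝕜] X, ∀ x n,
    E.co (L x) n = (if 0 ≤ n then w (n + 1) else 0) * E.co x (n + 1) :=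
  E.exists_op _ (C := B) (fun n => by
    split_ifs
    · exact h.bdd _
    · rw [norm_zero]; exact h.Bpos.le) 1

theorem exists_LB : ∃ L : X →L[𝕜] X, ∀ x n,
    E.co (L x) n = (if n + 1 < 0 then w (n + 1) else 0) * E.co x (n + 1) :=
  E.exists_op _ (C := B) (fun n => by
    split_ifs
    · exact h.bdd _
    · rw [norm_zero]; exact h.Bpos.le) 1

theorem exists_LC : ∃ L : X →L[𝕜] X, ∀ x n,
    E.co (L x) n = (if n < 0 then (w n)⁻¹ else 0) * E.co x (n + (-1)) :=
  E.exists_op _ (C := b⁻¹) (fun n => by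
    split_ifs
    · exact h.inv_le _
    · rw [norm_zero]; exact inv_nonneg.mpr h.pos.le) (-1)

theorem exists_LD : ∃ L : X →L[𝕜] X, ∀ x n,
    E.co (L x) n = (if 1 ≤ n then (w n)⁻¹ else 0) * E.co x (n + (-1)) :=
  E.exists_op _ (C := b⁻¹) (fun n => by
    split_ifs
    · exact h.inv_le _
    · rw [norm_zero]; exact inv_nonneg.mpr h.pos.le) (-1)

/-- right half contracting: bound for the right part -/
theorem boundA {P : X →L[𝕜] X} (hP : IsP E P) (hA : UnifContr (fun n => ‖w (n + 1)‖)) :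
    ∃ K, 0 ≤ K ∧ ∀ (q : ℕ) (x : ℤ → X) (F : ℝ), 0 < q → (∀ j, x (j + q) = x j) →
      (∀ j, ‖x (j + 1) - T (x j)‖ ≤ F) → ∀ j, ‖P (x j)‖ ≤ K * F := by
  obtain ⟨C, r, hr0, hr1, hCr⟩ := hA
  have hC : 1 ≤ C := UnifContr.one_le (a := fun n => ‖w (n + 1)‖) hCr
  obtain ⟨L, hL⟩ := h.exists_LA
  refine ⟨C / (1 - r), div_nonneg (by linarith) (by linarith), fun q x F hq hx hF => ?_⟩
  obtain ⟨M, hM⟩ := periodic_bdd hq hx
  refine apriori L hr0 hr1 (fun k v => E.pow_left_bound L _ hL (by linarith) hr0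
    (fun n k => prodA hr0 (by exact_mod_cast hCr) n k) k v) (fun j => P (x j))
    (fun j => P (x (j + 1) - T (x j))) ?_ (M := M) ?_ ?_ (by linarith)
  · intro j
    have h1 : L (P (x j)) = P (T (x j)) := by
      apply E.inj
      ext n
      rw [hL, hP, hP, h.act]
      by_cases hn : 0 ≤ n
      · rw [if_pos hn, if_pos hn, if_pos (by omega)]
      · rw [if_neg hn, if_neg hn, zero_mul]
    simp only [h1, map_sub]
    abel
  · exact fun j => (P_le hP _).trans (hM j)
  · exact fun j => (P_le hP _).trans (hF j)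

/-- left half expanding: bound for the left part -/
theorem boundC {Q : X →L[𝕜] X} (hQ : IsQ E Q) (hA : UnifContr (fun n => ‖w (-n)‖⁻¹)) :
    ∃ K, 0 ≤ K ∧ ∀ (q : ℕ) (x : ℤ → X) (F : ℝ), 0 < q → (∀ j, x (j + q) = x j) →
      (∀ j, ‖x (j + 1) - T (x j)‖ ≤ F) → ∀ j, ‖Q (x j)‖ ≤ K * F := by
  obtain ⟨C, r, hr0, hr1, hCr⟩ := hA
  have hC : 1 ≤ C := UnifContr.one_le (a := fun n => ‖w (-n)‖⁻¹) hCr
  obtain ⟨L, hL⟩ := h.exists_LC
  have hb := h.pos
  refine ⟨C / (1 - r) * b⁻¹, mul_nonneg (div_nonneg (by linarith) (by linarith))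
    (inv_nonneg.mpr hb.le), fun q x F hq hx hF => ?_⟩
  obtain ⟨M, hM⟩ := periodic_bdd hq hx
  have key := apriori L (C := C) hr0 hr1 (fun k v => E.pow_right_bound L _ hL (by linarith) hr0
    (fun n k => prodC hr0 (by exact_mod_cast hCr) n k) k v) (fun j => Q (x (-j)))
    (fun j => -Q (T.symm (x (-j - 1 + 1) - T (x (-j - 1))))) ?_ (M := M) (F := b⁻¹ * F)
    ?_ ?_ (by linarith)
  · intro j
    have := key (-j)
    rw [neg_neg] at this
    rw [mul_assoc]
    exact this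
  · intro j
    have h1 : L (Q (x (-j))) = Q (T.symm (x (-j))) := by
      apply E.inj
      ext n
      rw [hL, hQ, hQ, h.symm_act]
      by_cases hn : n < 0
      · rw [if_pos hn, if_pos hn, if_pos (by omega)]
      · rw [if_neg hn, if_neg hn, zero_mul]
    have h2 : -(j + 1) = -j - 1 := by ring
    have h3 : -j - 1 + 1 = -j := by ring
    simp only [h1, map_sub, h2, h3, T.symm_apply_apply]
    abel
  · exact fun j => (Q_le hQ _).trans (hM _)
  · intro j
    rw [norm_neg]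
    refine (Q_le hQ _).trans ((h.Tsymm_le _).trans ?_)
    exact mul_le_mul_of_nonneg_left (hF _) (inv_nonneg.mpr hb.le)

/-- left half contracting: bound for the left part, given one for the right part -/
theorem boundB {P Q : X →L[𝕜] X} (hP : IsP E P) (hQ : IsQ E Q)
    (hA : UnifContr (fun n => ‖w (-n)‖)) :
    ∃ K, 0 ≤ K ∧ ∀ (q : ℕ) (x : ℤ → X) (F G : ℝ), 0 < q → (∀ j, x (j + q) = x j) →
      (∀ j, ‖x (j + 1) - T (x j)‖ ≤ F) → (∀ j, ‖P (x j)‖ ≤ G) →
      ∀ j, ‖Q (x j)‖ ≤ K * (F + G) := by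
  obtain ⟨C, r, hr0, hr1, hCr⟩ := hA
  have hC : 1 ≤ C := UnifContr.one_le (a := fun n => ‖w (-n)‖) hCr
  obtain ⟨L, hL⟩ := h.exists_LB
  have hB := h.Bpos
  refine ⟨C / (1 - r) * (1 + B), mul_nonneg (div_nonneg (by linarith) (by linarith))
    (by linarith), fun q x F G hq hx hF hG => ?_⟩
  have hF0 : 0 ≤ F := (norm_nonneg _).trans (hF 0)
  have hG0 : 0 ≤ G := (norm_nonneg _).trans (hG 0)
  obtain ⟨M, hM⟩ := periodic_bdd hq hx
  have key := apriori L (C := C) hr0 hr1 (fun k v => E.pow_left_bound L _ hL (by linarith) hr0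
    (fun n k => prodB hr0 (by exact_mod_cast hCr) n k) k v) (fun j => Q (x j))
    (fun j => Q (x (j + 1) - T (x j)) + Q (T (P (x j)))) ?_ (M := M) (F := F + B * G)
    ?_ ?_ (by linarith)
  · intro j
    refine (key j).trans ?_
    rw [mul_assoc]
    refine mul_le_mul_of_nonneg_left ?_ (div_nonneg (by linarith) (by linarith))
    nlinarith
  · intro j
    have h1 : L (Q (x j)) = Q (T (Q (x j))) := by
      apply E.inj
      ext n
      rw [hL, hQ, hQ, h.act, hQ]
      by_cases hn : n + 1 < 0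
      · rw [if_pos hn, if_pos hn, if_pos (by omega)]
      · rw [if_neg hn, if_neg hn, zero_mul, mul_zero, ite_self]
    have h4 : Q (T (x j)) = Q (T (P (x j))) + Q (T (Q (x j))) := by
      rw [← map_add, ← map_add, PQ hP hQ]
    simp only [h1, map_sub, h4]
    abel
  · exact fun j => (Q_le hQ _).trans (hM _)
  · intro j
    refine (norm_add_le _ _).trans (add_le_add ((Q_le hQ _).trans (hF j)) ?_)
    refine (Q_le hQ _).trans ((h.T_le _).trans ?_)
    exact mul_le_mul_of_nonneg_left (hG _) hB.le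

/-- right half expanding: bound for the right part, given one for the left part -/
theorem boundD {P Q : X →L[𝕜] X} (hP : IsP E P) (hQ : IsQ E Q)
    (hA : UnifContr (fun n => ‖w (n + 1)‖⁻¹)) :
    ∃ K, 0 ≤ K ∧ ∀ (q : ℕ) (x : ℤ → X) (F G : ℝ), 0 < q → (∀ j, x (j + q) = x j) →
      (∀ j, ‖x (j + 1) - T (x j)‖ ≤ F) → (∀ j, ‖Q (x j)‖ ≤ G) →
      ∀ j, ‖P (x j)‖ ≤ K * (F + G) := by
  obtain ⟨C, r, hr0, hr1, hCr⟩ := hA
  have hC : 1 ≤ C := UnifContr.one_le (a := fun n => ‖w (n + 1)‖⁻¹) hCr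
  obtain ⟨L, hL⟩ := h.exists_LD
  have hb := h.pos
  have hb' := inv_nonneg.mpr hb.le
  refine ⟨C / (1 - r) * b⁻¹, mul_nonneg (div_nonneg (by linarith) (by linarith))
    hb', fun q x F G hq hx hF hG => ?_⟩
  obtain ⟨M, hM⟩ := periodic_bdd hq hx
  have key := apriori L (C := C) hr0 hr1 (fun k v => E.pow_right_bound L _ hL (by linarith) hr0
    (fun n k => prodD hr0 (by exact_mod_cast hCr) n k) k v) (fun j => P (x (-j)))
    (fun j => P (T.symm (Q (x (-j)))) - P (T.symm (x (-j - 1 + 1) - T (x (-j - 1)))))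
    ?_ (M := M) (F := b⁻¹ * (F + G)) ?_ ?_ (by linarith)
  · intro j
    have := key (-j)
    rw [neg_neg] at this
    rw [mul_assoc]
    exact this
  · intro j
    have h1 : L (P (x (-j))) = P (T.symm (P (x (-j)))) := by
      apply E.inj
      ext n
      rw [hL, hP, hP, h.symm_act, hP]
      by_cases hn : 1 ≤ n
      · rw [if_pos hn, if_pos (by omega), if_pos (by omega)]
      · rw [if_neg hn, zero_mul]
        by_cases hn' : 0 ≤ n
        · rw [if_pos hn', if_neg (by omega), mul_zero]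
        · rw [if_neg hn']
    have h2 : -(j + 1) = -j - 1 := by ring
    have h3 : -j - 1 + 1 = -j := by ring
    have h4 : P (T.symm (x (-j))) = P (T.symm (P (x (-j)))) + P (T.symm (Q (x (-j)))) := by
      rw [← map_add, ← map_add, PQ hP hQ]
    simp only [h1, map_sub, h2, h3, T.symm_apply_apply, h4]
    abel
  · exact fun j => (P_le hP _).trans (hM _)
  · intro j
    have h5 : ‖P (T.symm (Q (x (-j))))‖ ≤ b⁻¹ * G :=
      (P_le hP _).trans ((h.Tsymm_le _).trans (mul_le_mul_of_nonneg_left (hG _) hb'))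
    have h6 : ‖P (T.symm (x (-j - 1 + 1) - T (x (-j - 1))))‖ ≤ b⁻¹ * F :=
      (P_le hP _).trans ((h.Tsymm_le _).trans (mul_le_mul_of_nonneg_left (hF _) hb'))
    refine (norm_sub_le _ _).trans ?_
    linarith

omit h in
theorem zpow_orbit (T : X ≃L[𝕜] X) (u : ℤ → X) (hu : ∀ j, u (j + 1) = T (u j)) (j : ℤ) :
    (T ^ j) (u 0) = u j := by
  induction j with
  | zero => rw [zpow_zero]; rfl
  | succ i ih =>
    rw [add_comm, zpow_add, zpow_one]
    change T ((T ^ (i : ℤ)) (u 0)) = _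
    rw [ih, ← hu, add_comm]
  | pred i ih =>
    rw [sub_eq_add_neg, add_comm, zpow_add, zpow_neg_one]
    change T.symm ((T ^ (-(i : ℤ))) (u 0)) = _
    rw [ih]
    have := hu (-(i : ℤ) + -1)
    rw [show -(i : ℤ) + -1 + 1 = -i by ring] at this
    rw [this, T.symm_apply_apply, add_comm]

omit h in
/-- linear control of periodic pseudotrajectories gives periodic shadowing -/
theorem psp_of (T : X ≃L[𝕜] X) (K : ℝ) (hK : 0 ≤ K)
    (key : ∀ (q : ℕ) (x : ℤ → X) (F : ℝ), 0 < q → (∀ j, x (j + q) = x j) →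
      (∀ j, ‖x (j + 1) - T (x j)‖ ≤ F) → ∃ z : ℤ → X, (∀ j, z (j + q) = z j) ∧
        (∀ j, z (j + 1) = T (z j) + (x (j + 1) - T (x j))) ∧ ∀ j, ‖z j‖ ≤ K * F) : PSP T := by
  intro ε hε
  refine ⟨ε / (K + 1), by positivity, ?_⟩
  rintro x ⟨q, hq, hx⟩ hxT
  obtain ⟨z, hz1, hz2, hz3⟩ := key q x (ε / (K + 1)) hq hx (fun j => by
    rw [← neg_sub, norm_neg]; exact (hxT j).le)
  set u : ℤ → X := fun j => x j - z j with hu
  have hu1 : ∀ j, u (j + 1) = T (u j) := by
    intro j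
    simp only [hu]
    rw [hz2 j, map_sub]
    abel
  have hu2 := zpow_orbit T u hu1
  refine ⟨u 0, ⟨q, hq, ?_⟩, fun j => ?_⟩
  · have h1 := hu2 q
    rw [zpow_natCast] at h1
    rw [h1]
    have h2 := hx 0
    have h3 := hz1 0
    rw [zero_add] at h2 h3
    simp only [hu, h2, h3]
  · rw [hu2 j]
    have h1 : x j - u j = z j := by simp [hu]
    rw [h1]
    refine lt_of_le_of_lt (hz3 j) ?_
    rw [mul_div_assoc', div_lt_iff₀ (by positivity)]
    nlinarith

theorem psp_saddle [CompleteSpace X] {P Q : X →L[𝕜] X} (hP : IsP E P) (hQ : IsQ E Q)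
    (hR : UnifContr (fun n => ‖w (n + 1)‖⁻¹)) (hL : UnifContr (fun n => ‖w (-n)‖)) : PSP T := by
  obtain ⟨C, r, hr0, hr1, hCr⟩ := hL
  have hC : 1 ≤ C := UnifContr.one_le (a := fun n => ‖w (-n)‖) hCr
  obtain ⟨C', r', hr0', hr1', hCr'⟩ := hR
  have hC' : 1 ≤ C' := UnifContr.one_le (a := fun n => ‖w (n + 1)‖⁻¹) hCr'
  obtain ⟨L, hL⟩ := h.exists_LB
  obtain ⟨L', hL'⟩ := h.exists_LD
  have hLk : ∀ (k : ℕ) v, ‖(L ^ k) v‖ ≤ C * r ^ k * ‖v‖ :=
    fun k v => E.pow_left_bound L _ hL (by linarith) hr0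
      (fun n k => prodB hr0 (by exact_mod_cast hCr) n k) k v
  have hLk' : ∀ (k : ℕ) v, ‖(L' ^ k) v‖ ≤ C' * r' ^ k * ‖v‖ :=
    fun k v => E.pow_right_bound L' _ hL' (by linarith) hr0'
      (fun n k => prodD hr0' (by exact_mod_cast hCr') n k) k v
  have hb := h.pos
  have hb' := inv_nonneg.mpr hb.le
  have hLL : ∀ v, L v = T (Q v) := by
    intro v
    apply E.inj
    ext n
    rw [hL, h.act, hQ]
    by_cases hn : n + 1 < 0
    · rw [if_pos hn, if_pos hn]
    · rw [if_neg hn, if_neg hn, zero_mul, mul_zero]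
  have hQL : ∀ v, Q (L v) = L v := by
    intro v
    apply E.inj
    ext n
    rw [hQ, hL]
    by_cases hn : n + 1 < 0
    · rw [if_pos (by omega)]
    · rw [if_neg hn, zero_mul, ite_self]
  have hLL' : ∀ v, L' v = T.symm (P v) := by
    intro v
    apply E.inj
    ext n
    rw [hL', h.symm_act, hP]
    by_cases hn : 1 ≤ n
    · rw [if_pos hn, if_pos (by omega)]
    · rw [if_neg hn, if_neg (by omega), zero_mul, mul_zero]
  have hPL : ∀ v, P (L' v) = L' v := by
    intro v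
    apply E.inj
    ext n
    rw [hP, hL']
    by_cases hn : 1 ≤ n
    · rw [if_pos (by omega)]
    · rw [if_neg hn, zero_mul, ite_self]
  have hQQ : ∀ v, Q (Q v) = Q v := by
    intro v
    apply E.inj
    ext n
    rw [hQ, hQ]
    split_ifs <;> rfl
  refine psp_of T (C / (1 - r) + C' / (1 - r') * b⁻¹) ?_ fun q x F hq hx hF => ?_
  · have h1 : 0 ≤ C / (1 - r) := div_nonneg (by linarith) (by linarith)
    have h2 : 0 ≤ C' / (1 - r') := div_nonneg (by linarith) (by linarith)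
    positivity
  set y : ℤ → X := fun j => x (j + 1) - T (x j) with hy
  have hyq : ∀ j, y (j + q) = y j := by
    intro j
    simp only [hy]
    rw [hx j, show j + (q : ℤ) + 1 = (j + 1) + q by ring, hx (j + 1)]
  have hyq' : ∀ j, y (j - q) = y j := by
    intro j
    rw [← hyq (j - q), sub_add_cancel]
  have hQy : ∀ j, ‖Q (y j)‖ ≤ F := fun j => (Q_le hQ _).trans (hF j)
  obtain ⟨u, hu1, hu2⟩ := exists_sol L hr0 hr1 hLk (fun j => Q (y j)) hQy (by linarith) q
    (fun j => by simp only [hyq])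
  have hfy : ∀ j, ‖-L' (y (-j - 1))‖ ≤ b⁻¹ * F := by
    intro j
    rw [norm_neg, hLL']
    exact (h.Tsymm_le _).trans (mul_le_mul_of_nonneg_left ((P_le hP _).trans (hF _)) hb')
  obtain ⟨v, hv1, hv2⟩ := exists_sol L' hr0' hr1' hLk' (fun j => -L' (y (-j - 1))) hfy
    (by linarith) q (fun j => by
      rw [show -(j + (q : ℤ)) - 1 = (-j - 1) - q by ring, hyq'])
  obtain ⟨Mu, hMu⟩ := periodic_bdd hq hu2
  obtain ⟨Mv, hMv⟩ := periodic_bdd hq hv2
  have bu := apriori L hr0 hr1 hLk u (fun j => Q (y j)) hu1 hMu hQy (by linarith)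
  have bv := apriori L' hr0' hr1' hLk' v (fun j => -L' (y (-j - 1))) hv1 hMv hfy (by linarith)
  have hQu : ∀ j, Q (u j) = u j := by
    intro j
    have := hu1 (j - 1)
    rw [sub_add_cancel] at this
    rw [this, map_add, hQL, hQQ]
  have hPv : ∀ j, P (v j) = v j := by
    intro j
    have := hv1 (j - 1)
    rw [sub_add_cancel] at this
    rw [this, map_add, map_neg, hPL, hPL]
  refine ⟨fun j => u j + v (-j), fun j => ?_, fun j => ?_, fun j => ?_⟩
  · simp only
    rw [hu2]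
    congr 1
    have := hv2 (-j - q)
    rw [sub_add_cancel] at this
    rw [this]
    congr 1
    ring
  · have e1 : u (j + 1) = T (u j) + Q (y j) := by
      rw [hu1 j, hLL, hQu]
    have e2 : T (v (-j)) = v (-(j + 1)) - P (y j) := by
      have := hv1 (-j - 1)
      rw [sub_add_cancel, show -(-j - 1) - 1 = j by ring] at this
      rw [this, hLL', hLL', hPv, map_add, map_neg, T.apply_symm_apply, T.apply_symm_apply,
        show -(j + 1) = -j - 1 by ring]
      abel
    have e3 : y j = P (y j) + Q (y j) := (PQ hP hQ _).symm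
    have e4 : Q (y j) = y j - P (y j) := by
      rw [eq_sub_iff_add_eq, add_comm]; exact e3.symm
    simp only
    rw [map_add, e1, e2, e4]
    change _ = _ + y j
    abel
  · refine (norm_add_le _ _).trans ?_
    rw [add_mul]
    refine add_le_add (bu j) ?_
    rw [mul_assoc]
    exact bv (-j)

theorem psp_of_cond [CompleteSpace X] (hw : HalfHyperbolic w) : PSP T := by
  obtain ⟨P, hP⟩ := exists_P (E := E)
  obtain ⟨Q, hQ⟩ := exists_Q (E := E)
  have hsplit : ∀ x : X, ‖x‖ ≤ ‖P x‖ + ‖Q x‖ := fun x => by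
    conv_lhs => rw [← PQ hP hQ x]
    exact norm_add_le _ _
  obtain ⟨hR | hR, hL | hL⟩ := hw
  · -- contraction on both sides
    obtain ⟨K1, hK1, h1⟩ := h.boundA hP hR
    obtain ⟨K2, hK2, h2⟩ := h.boundB hP hQ hL
    refine psp_of T (K1 + K2 * (1 + K1)) (by positivity) fun q x F hq hx hF =>
      ⟨x, hx, fun j => by abel, fun j => ?_⟩
    have e1 := h1 q x F hq hx hF
    have e2 := h2 q x F (K1 * F) hq hx hF e1 j
    refine (hsplit _).trans ?_
    linarith [e1 j]
  · -- contraction right, expansion left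
    obtain ⟨K1, hK1, h1⟩ := h.boundA hP hR
    obtain ⟨K2, hK2, h2⟩ := h.boundC hQ hL
    refine psp_of T (K1 + K2) (by positivity) fun q x F hq hx hF =>
      ⟨x, hx, fun j => by abel, fun j => ?_⟩
    have e1 := h1 q x F hq hx hF j
    have e2 := h2 q x F hq hx hF j
    refine (hsplit _).trans ?_
    linarith
  · -- expansion right, contraction left: construct the solution
    exact h.psp_saddle hP hQ hR hL
  · -- expansion on both sides
    obtain ⟨K1, hK1, h1⟩ := h.boundC hQ hL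
    obtain ⟨K2, hK2, h2⟩ := h.boundD hP hQ hR
    refine psp_of T (K1 + K2 * (1 + K1)) (by positivity) fun q x F hq hx hF =>
      ⟨x, hx, fun j => by abel, fun j => ?_⟩
    have e1 := h1 q x F hq hx hF
    have e2 := h2 q x F (K1 * F) hq hx hF e1 j
    refine (hsplit _).trans ?_
    linarith [e1 j]

end IsShift
end SeqSp


namespace SeqSp
namespace IsShift

variable {𝕜 X : Type*} [RCLike 𝕜] [NormedAddCommGroup X] [NormedSpace 𝕜 X] {E : SeqSp 𝕜 X}
variable {w : ℤ → 𝕜} {T : X ≃L[𝕜] X} {B b : ℝ} (h : E.IsShift w T B b)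

theorem finsupp_mem (E : SeqSp 𝕜 X) (s : Finset ℤ) (y : ℤ → 𝕜) :
    ∃ x : X, (∀ n, E.co x n = if n ∈ s then y n else 0) ∧ ‖x‖ ≤ ∑ n ∈ s, ‖y n‖ := by
  classical
  choose e he hen using E.single
  refine ⟨∑ n ∈ s, y n • e n, fun n => ?_, ?_⟩
  · rw [map_sum, Finset.sum_apply]
    simp only [map_smul, he, Pi.smul_apply, smul_eq_mul, Pi.single_apply, mul_ite, mul_one,
      mul_zero]
    rw [Finset.sum_ite_eq]
  · refine (norm_sum_le _ _).trans (Finset.sum_le_sum fun n _ => ?_)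
    rw [norm_smul]
    exact mul_le_of_le_one_right (norm_nonneg _) (hen n)

include h in
theorem exists_pi : ∃ π : ℤ → 𝕜, (∀ n, π n ≠ 0) ∧ ∀ n, π n = w (n + 1) * π (n + 1) := by
  have hw := h.ne
  refine ⟨fun n => (∏ i ∈ Finset.range n.toNat, w (i + 1))⁻¹ *
    ∏ i ∈ Finset.range (-n).toNat, w (-i), fun n => ?_, fun n => ?_⟩
  · refine mul_ne_zero (inv_ne_zero (Finset.prod_ne_zero_iff.mpr fun i _ => hw _))
      (Finset.prod_ne_zero_iff.mpr fun i _ => hw _)
  · simp only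
    rcases le_or_gt 0 n with hn | hn
    · obtain ⟨m, rfl⟩ := Int.eq_ofNat_of_zero_le hn
      have h1 : (-((m : ℤ))).toNat = 0 := by omega
      have h2 : (-((m : ℤ) + 1)).toNat = 0 := by omega
      have h3 : ((m : ℤ) + 1).toNat = m + 1 := by omega
      rw [h1, h2, h3, Int.toNat_natCast, Finset.prod_range_succ]
      simp only [Finset.range_zero, Finset.prod_empty, mul_one]
      rw [mul_inv, mul_comm, mul_assoc, inv_mul_cancel₀ (hw _), mul_one]
    · obtain ⟨m, hm⟩ := Int.eq_ofNat_of_zero_le (by omega : 0 ≤ -(n + 1))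
      have h1 : n.toNat = 0 := by omega
      have h2 : (n + 1).toNat = 0 := by omega
      have h3 : (-(n + 1)).toNat = m := by omega
      have h4 : (-n).toNat = m + 1 := by omega
      rw [h1, h2, h3, h4, Finset.prod_range_succ]
      simp only [Finset.range_zero, Finset.prod_empty, inv_one, one_mul]
      have h5 : -(m : ℤ) = n + 1 := by omega
      rw [h5, mul_comm]

theorem fix_shadow (T : X ≃L[𝕜] X) (hP : PSP T) : ∃ δ : ℝ, 0 < δ ∧ ∀ (x : X) (t : ℝ), 0 < t →
    ‖T x - x‖ < δ * t → ∃ z, T z = z ∧ ‖x - z‖ ≤ t := by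
  obtain ⟨δ, hδ, hx⟩ := hP 1 one_pos
  refine ⟨δ, hδ, fun x t ht hxt => ?_⟩
  have ht' : (t : 𝕜) ≠ 0 := by exact_mod_cast ht.ne'
  obtain ⟨z, ⟨q, hq, hz⟩, hz2⟩ := hx (fun _ => (t : 𝕜)⁻¹ • x) ⟨1, one_pos, fun _ => rfl⟩ (by
    intro j
    rw [map_smul, ← smul_sub, norm_smul, norm_inv, RCLike.norm_ofReal, abs_of_pos ht,
      inv_mul_lt_iff₀ ht, mul_comm]
    exact hxt)
  have hq' : (q : 𝕜) ≠ 0 := by exact_mod_cast hq.ne'
  have hq'' : (0 : ℝ) < q := by exact_mod_cast hq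
  refine ⟨(t : 𝕜) • (q : 𝕜)⁻¹ • ∑ j ∈ Finset.range q, (T ^ j) z, ?_, ?_⟩
  · rw [map_smul, map_smul, map_sum]
    congr 2
    have h1 : ∀ j : ℕ, T ((T ^ j) z) = (T ^ (j + 1)) z := by
      intro j
      rw [pow_succ']
      rfl
    simp only [h1]
    have h2 := Finset.sum_range_succ (fun j => (T ^ j) z) q
    have h3 := Finset.sum_range_succ' (fun j => (T ^ j) z) q
    rw [h2] at h3
    have h4 : (T ^ 0) z = z := rfl
    rw [hz, h4] at h3
    exact (add_right_cancel h3).symm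
  · have h1 : x - (t : 𝕜) • (q : 𝕜)⁻¹ • ∑ j ∈ Finset.range q, (T ^ j) z =
        (t : 𝕜) • (q : 𝕜)⁻¹ • ∑ j ∈ Finset.range q, ((t : 𝕜)⁻¹ • x - (T ^ (j : ℤ)) z) := by
      rw [Finset.sum_sub_distrib, Finset.sum_const, Finset.card_range, smul_sub, smul_sub,
        ← Nat.cast_smul_eq_nsmul 𝕜, smul_smul (q : 𝕜)⁻¹, inv_mul_cancel₀ hq', one_smul,
        smul_smul (t : 𝕜) (t : 𝕜)⁻¹, mul_inv_cancel₀ ht', one_smul]
      simp only [zpow_natCast]
    rw [h1, norm_smul, norm_smul, norm_inv, RCLike.norm_ofReal, RCLike.norm_natCast,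
      abs_of_pos ht]
    have h2 : ‖∑ j ∈ Finset.range q, ((t : 𝕜)⁻¹ • x - (T ^ (j : ℤ)) z)‖ ≤ q := by
      refine (norm_sum_le _ _).trans ?_
      have h9 : ∀ j ∈ Finset.range q, ‖(t : 𝕜)⁻¹ • x - (T ^ (j : ℤ)) z‖ ≤ 1 :=
        fun j _ => (hz2 (j : ℤ)).le
      refine (Finset.sum_le_sum h9).trans ?_
      simp
    have h3 : (q : ℝ)⁻¹ * ‖∑ j ∈ Finset.range q, ((t : 𝕜)⁻¹ • x - (T ^ (j : ℤ)) z)‖ ≤ 1 := by
      rw [inv_mul_le_iff₀ hq'', mul_one]
      exact h2
    calc t * ((q : ℝ)⁻¹ * _) ≤ t * 1 := mul_le_mul_of_nonneg_left h3 ht.le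
      _ = t := mul_one t

theorem exp_diff {η a c : ℝ} (hη : 0 < η) (hac : |a - c| ≤ 1) :
    |Real.exp (-(2 * η) * a) - Real.exp (-(2 * η) * c)| ≤
      (Real.exp (2 * η) - 1) * Real.exp (-(2 * η) * c) := by
  have h1 : Real.exp (-(2 * η) * a) = Real.exp (-(2 * η) * (a - c)) * Real.exp (-(2 * η) * c) := by
    rw [← Real.exp_add]; congr 1; ring
  have hc := Real.exp_pos (-(2 * η) * c)
  rw [h1]
  have h2 : Real.exp (-(2 * η) * (a - c)) ≤ Real.exp (2 * η) := by
    apply Real.exp_le_exp.mpr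
    nlinarith [(abs_le.mp hac).1]
  have h3 : Real.exp (-(2 * η)) ≤ Real.exp (-(2 * η) * (a - c)) := by
    apply Real.exp_le_exp.mpr
    nlinarith [(abs_le.mp hac).2]
  have h4 : 1 - Real.exp (-(2 * η)) ≤ Real.exp (2 * η) - 1 := by
    have e1 := Real.add_one_le_exp (2 * η)
    have e2 := Real.add_one_le_exp (-(2 * η))
    linarith
  have h5 : |Real.exp (-(2 * η) * (a - c)) - 1| ≤ Real.exp (2 * η) - 1 := by
    rw [abs_le]
    constructor <;> linarith
  have h6 : Real.exp (-(2 * η) * (a - c)) * Real.exp (-(2 * η) * c) - Real.exp (-(2 * η) * c) =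
      (Real.exp (-(2 * η) * (a - c)) - 1) * Real.exp (-(2 * η) * c) := by ring
  rw [h6, abs_mul, abs_of_pos hc]
  exact mul_le_mul_of_nonneg_right h5 hc.le

include h in
theorem vector_contradiction {δ : ℝ} (hδ : ∀ (x : X) (t : ℝ), 0 < t →
      ‖T x - x‖ < δ * t → ∃ z, T z = z ∧ ‖x - z‖ ≤ t) {π : ℤ → 𝕜} (hπ0 : ∀ n, π n ≠ 0)
    (hπ : ∀ n, π n = w (n + 1) * π (n + 1)) {η : ℝ} (hη : 0 < η) (M : ℕ) (n₀ : ℤ)
    (hmax : ∀ m : ℤ, |(m : ℝ) - n₀| ≤ M → ‖π m‖ ≤ ‖π n₀‖ * Real.exp (η * |(m : ℝ) - n₀|))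
    (hM : Real.exp (2 * η) - 1 + (1 + B) * Real.exp (-η * M) < δ / 8)
    (hn₀ : (M : ℝ) < |(n₀ : ℝ)|)
    (hsmall : (∃ x : X, E.co x = π) → ∑ m ∈ Finset.Icc (n₀ - M) (n₀ + M), ‖π m‖ ≤ ‖π 0‖) :
    False := by
  classical
  have hB := h.Bpos
  set W := Finset.Icc (n₀ - (M : ℤ)) (n₀ + M) with hW
  have hWabs : ∀ n : ℤ, n ∈ W ↔ |(n : ℝ) - n₀| ≤ M := by
    intro n
    rw [hW, Finset.mem_Icc, abs_le]
    constructor
    · rintro ⟨h1, h2⟩
      have e1 : (n₀ : ℝ) - M ≤ n := by exact_mod_cast h1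
      have e2 : (n : ℝ) ≤ n₀ + M := by exact_mod_cast h2
      constructor <;> linarith
    · rintro ⟨h1, h2⟩
      have e1 : (n₀ : ℝ) - M ≤ n := by linarith
      have e2 : (n : ℝ) ≤ n₀ + M := by linarith
      exact ⟨by exact_mod_cast e1, by exact_mod_cast e2⟩
  set φ : ℤ → ℝ := fun n => Real.exp (-(2 * η) * |(n : ℝ) - n₀|) with hφ
  obtain ⟨x, hx, -⟩ := finsupp_mem E W (fun n => (φ n : 𝕜) * π n * (π n₀)⁻¹)
  have hxn : ∀ n ∈ W, ‖E.co x n‖ = φ n * (‖π n‖ * ‖π n₀‖⁻¹) := by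
    intro n hn
    rw [hx, if_pos hn, norm_mul, norm_mul, RCLike.norm_ofReal, norm_inv,
      abs_of_pos (Real.exp_pos _), mul_assoc]
  have hπn0 : 0 < ‖π n₀‖ := norm_pos_iff.mpr (hπ0 n₀)
  have hratio : ∀ n ∈ W, ‖π n‖ * ‖π n₀‖⁻¹ ≤ Real.exp (η * |(n : ℝ) - n₀|) := by
    intro n hn
    have := hmax n ((hWabs n).mp hn)
    rw [← div_eq_mul_inv, div_le_iff₀ hπn0, mul_comm]
    exact this
  have hn0W : n₀ ∈ W := by rw [hWabs]; simp
  -- norm of x is at least one
  have hx1 : 1 ≤ ‖x‖ := by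
    have := E.coord_le x n₀
    rw [hxn n₀ hn0W, mul_inv_cancel₀ hπn0.ne', mul_one, hφ] at this
    simpa using this
  -- the defect
  have hd : ∀ n, E.co (T x - x) n = w (n + 1) * E.co x (n + 1) - E.co x n := by
    intro n
    rw [map_sub, Pi.sub_apply, h.act]
  have F1 : ∀ n, n ∈ W → n + 1 ∈ W → ‖E.co (T x - x) n‖ ≤ (Real.exp (2 * η) - 1) * ‖E.co x n‖ := by
    intro n hn hn1
    rw [hd, hxn n hn, hx, hx, if_pos hn, if_pos hn1]
    have e1 : w (n + 1) * ((φ (n + 1) : 𝕜) * π (n + 1) * (π n₀)⁻¹) - (φ n : 𝕜) * π n * (π n₀)⁻¹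
        = (((φ (n + 1) - φ n : ℝ)) : 𝕜) * π n * (π n₀)⁻¹ := by
      rw [RCLike.ofReal_sub, hπ n]
      ring
    rw [e1, norm_mul, norm_mul, RCLike.norm_ofReal, norm_inv, mul_assoc, ← mul_assoc]
    refine (le_of_eq (mul_assoc _ _ _)).trans ?_
    rw [← mul_assoc (Real.exp (2 * η) - 1)]
    refine mul_le_mul_of_nonneg_right ?_ (by positivity)
    refine exp_diff hη ?_
    refine (abs_abs_sub_abs_le_abs_sub _ _).trans ?_
    push_cast
    rw [show (n : ℝ) + 1 - n₀ - (n - n₀) = 1 by ring, abs_one]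
  have hexp : Real.exp (-(2 * η) * M) * Real.exp (η * M) = Real.exp (-η * M) := by
    rw [← Real.exp_add]; congr 1; ring
  have F2 : ‖E.co (T x - x) (n₀ + M)‖ ≤ Real.exp (-η * M) := by
    have hin : n₀ + (M : ℤ) ∈ W := by rw [hW, Finset.mem_Icc]; omega
    have hout : n₀ + (M : ℤ) + 1 ∉ W := by rw [hW, Finset.mem_Icc]; omega
    have e1 : |((n₀ + (M : ℤ) : ℤ) : ℝ) - n₀| = M := by push_cast; simp
    rw [hd, hx (n₀ + M + 1), if_neg hout, mul_zero, zero_sub, norm_neg, hxn _ hin, ← hexp]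
    have e2 := hratio _ hin
    simp only [hφ]
    rw [e1] at e2 ⊢
    exact mul_le_mul_of_nonneg_left e2 (Real.exp_pos _).le
  have F3 : ‖E.co (T x - x) (n₀ - M - 1)‖ ≤ B * Real.exp (-η * M) := by
    have hin : n₀ - (M : ℤ) - 1 + 1 ∈ W := by rw [hW, Finset.mem_Icc]; omega
    have hout : n₀ - (M : ℤ) - 1 ∉ W := by rw [hW, Finset.mem_Icc]; omega
    have e1 : |((n₀ - (M : ℤ) - 1 + 1 : ℤ) : ℝ) - n₀| = M := by push_cast; simp
    rw [hd, hx (n₀ - M - 1), if_neg hout, sub_zero, norm_mul, hxn _ hin, ← hexp]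
    have e2 := hratio _ hin
    simp only [hφ]
    rw [e1] at e2 ⊢
    refine mul_le_mul (h.bdd _) ?_ (by positivity) hB.le
    exact mul_le_mul_of_nonneg_left e2 (Real.exp_pos _).le
  have F4 : ∀ n, n ≠ n₀ + M → n ≠ n₀ - M - 1 → ¬ (n ∈ W ∧ n + 1 ∈ W) →
      E.co (T x - x) n = 0 := by
    intro n h1 h2 h3
    rw [hW, Finset.mem_Icc, Finset.mem_Icc] at h3
    have e1 : n ∉ W := by rw [hW, Finset.mem_Icc]; omega
    have e2 : n + 1 ∉ W := by rw [hW, Finset.mem_Icc]; omega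
    rw [hd, hx, hx, if_neg e1, if_neg e2, mul_zero, sub_zero]
  have hκ : 0 ≤ Real.exp (2 * η) - 1 := by
    have := Real.add_one_le_exp (2 * η); linarith
  -- norm of the defect
  have hdn : ‖T x - x‖ ≤ (Real.exp (2 * η) - 1) * ‖x‖ + (1 + B) * Real.exp (-η * M) := by
    obtain ⟨y1, hy1, hy1n⟩ := E.solid (((Real.exp (2 * η) - 1 : ℝ) : 𝕜) • x)
      (fun n => if n ∈ W ∧ n + 1 ∈ W then E.co (T x - x) n else 0) (by
        intro n
        rw [map_smul, Pi.smul_apply, norm_smul, RCLike.norm_ofReal, abs_of_nonneg hκ]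
        split_ifs with hc
        · exact F1 n hc.1 hc.2
        · rw [norm_zero]; positivity)
    obtain ⟨y2, hy2, hy2n⟩ := finsupp_mem E {n₀ + (M : ℤ), n₀ - (M : ℤ) - 1} (E.co (T x - x))
    have hne : n₀ + (M : ℤ) ≠ n₀ - M - 1 := by omega
    have hsum : T x - x = y1 + y2 := by
      apply E.inj
      ext n
      rw [map_add, Pi.add_apply, hy1, hy2]
      simp only [Finset.mem_insert, Finset.mem_singleton]
      by_cases c1 : n ∈ W ∧ n + 1 ∈ W
      · have c2 : ¬ (n = n₀ + (M : ℤ) ∨ n = n₀ - M - 1) := by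
          rw [hW, Finset.mem_Icc, Finset.mem_Icc] at c1
          omega
        rw [if_pos c1, if_neg c2, add_zero]
      · by_cases c2 : n = n₀ + (M : ℤ) ∨ n = n₀ - M - 1
        · rw [if_neg c1, if_pos c2, zero_add]
        · rw [if_neg c1, if_neg c2, add_zero]
          push Not at c2
          exact F4 n c2.1 c2.2 c1
    rw [Finset.sum_pair hne] at hy2n
    rw [hsum]
    refine (norm_add_le _ _).trans ?_
    rw [norm_smul, RCLike.norm_ofReal, abs_of_nonneg hκ] at hy1n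
    linarith
  -- apply the shadowing property
  have hxpos : 0 < ‖x‖ := by linarith
  obtain ⟨z, hz, hxz⟩ := hδ x (‖x‖ / 8) (by positivity) (by
    have e1 : (1 + B) * Real.exp (-η * M) ≤ (1 + B) * Real.exp (-η * M) * ‖x‖ :=
      le_mul_of_one_le_right (by positivity) hx1
    have e2 : (Real.exp (2 * η) - 1 + (1 + B) * Real.exp (-η * M)) * ‖x‖ < δ / 8 * ‖x‖ :=
      mul_lt_mul_of_pos_right hM hxpos
    calc ‖T x - x‖ ≤ (Real.exp (2 * η) - 1) * ‖x‖ + (1 + B) * Real.exp (-η * M) := hdn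
      _ ≤ (Real.exp (2 * η) - 1 + (1 + B) * Real.exp (-η * M)) * ‖x‖ := by linarith
      _ < δ / 8 * ‖x‖ := e2
      _ = δ * (‖x‖ / 8) := by ring)
  -- z is a multiple of π
  have hc : ∀ n, E.co z n * (π n)⁻¹ = E.co z (n + 1) * (π (n + 1))⁻¹ := by
    intro n
    have e1 : E.co z n = w (n + 1) * E.co z (n + 1) := by
      conv_lhs => rw [← hz]
      rw [h.act]
    have e2 := h.ne (n + 1)
    have e3 := hπ0 (n + 1)
    rw [e1, hπ n]
    field_simp
  have hc' : ∀ n, E.co z n * (π n)⁻¹ = E.co z 0 * (π 0)⁻¹ := by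
    intro n
    induction n with
    | zero => rfl
    | succ i ih => rw [← hc, ih]
    | pred i ih =>
      rw [hc, show -(i : ℤ) - 1 + 1 = -i by ring, ih]
  set c : 𝕜 := E.co z 0 * (π 0)⁻¹ with hcdef
  have hzn : ∀ n, E.co z n = c * π n := by
    intro n
    rw [← hc' n, mul_assoc, inv_mul_cancel₀ (hπ0 n), mul_one]
  have h0W : (0 : ℤ) ∉ W := by
    rw [hWabs]
    push_cast
    rw [zero_sub, abs_neg]
    exact not_le.mpr hn₀
  have hc0 : ‖c‖ * ‖π 0‖ ≤ ‖x‖ / 8 := by
    have e1 := E.coord_le (x - z) 0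
    rw [map_sub, Pi.sub_apply, hx, if_neg h0W, zero_sub, norm_neg, hzn, norm_mul] at e1
    exact e1.trans hxz
  -- norm of x is controlled
  obtain ⟨y, hy, hyn⟩ := finsupp_mem E W (fun n => c * π n)
  have hxy : ‖x‖ ≤ ‖x - z‖ + ‖y‖ := by
    obtain ⟨y', hy', hy'n⟩ := E.solid (x - z) (fun n => if n ∈ W then E.co (x - z) n else 0) (by
      intro n
      split_ifs
      · exact le_rfl
      · rw [norm_zero]; exact norm_nonneg _)
    have hy'' : ∀ n, E.co y' n = if n ∈ W then E.co x n - c * π n else 0 := by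
      intro n
      rw [hy']
      simp only [map_sub, Pi.sub_apply, hzn]
    have e1 : x = y' + y := by
      apply E.inj
      ext n
      rw [map_add, Pi.add_apply, hy'', hy]
      by_cases hn : n ∈ W
      · rw [if_pos hn, if_pos hn, sub_add_cancel]
      · rw [if_neg hn, if_neg hn, add_zero, hx, if_neg hn]
    calc ‖x‖ = ‖y' + y‖ := by rw [← e1]
      _ ≤ ‖y'‖ + ‖y‖ := norm_add_le _ _
      _ ≤ ‖x - z‖ + ‖y‖ := by linarith
  have hyb : ‖y‖ ≤ ‖x‖ / 8 := by
    refine hyn.trans ?_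
    simp only [norm_mul]
    rw [← Finset.mul_sum]
    by_cases hc1 : c = 0
    · rw [hc1, norm_zero, zero_mul]; positivity
    · have hmem : ∃ x : X, E.co x = π := by
        refine ⟨c⁻¹ • z, ?_⟩
        ext n
        rw [map_smul, Pi.smul_apply, hzn, smul_eq_mul, ← mul_assoc, inv_mul_cancel₀ hc1, one_mul]
      exact (mul_le_mul_of_nonneg_left (hsmall hmem) (norm_nonneg _)).trans hc0
  linarith

omit h in
theorem unif_of {p a : ℕ → ℝ} (hp : ∀ n, 0 < p n) (ha : ∀ n, 0 < a n)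
    (hrel : ∀ n, p n = a n * p (n + 1)) {A : ℝ} (hA : ∀ n, |Real.log (a n)| ≤ A) {η : ℝ}
    (hη : 0 < η) (M n₁ : ℕ)
    (hno : ∀ n, n₁ + M ≤ n → ¬ ApproxMin (fun n => -Real.log (p n)) η M n) :
    UnifContr a ∨ UnifContr (fun n => (a n)⁻¹) := by
  have hS : ∀ n, -Real.log (p (n + 1)) - -Real.log (p n) = Real.log (a n) := by
    intro n
    rw [hrel n, Real.log_mul (ha n).ne' (hp _).ne']
    ring
  have hprod : ∀ k N : ℕ, Real.log (∏ i ∈ Finset.range N, a (k + i)) =
      -Real.log (p (k + N)) - -Real.log (p k) := by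
    intro k N
    induction N with
    | zero => simp
    | succ N ih =>
      rw [Finset.prod_range_succ, Real.log_mul (Finset.prod_pos fun i _ => ha _).ne' (ha _).ne',
        ih, ← hS (k + N), ← add_assoc]
      ring
  have hexp : ∀ (C : ℝ) (N : ℕ), Real.exp (C - η * N) = Real.exp C * Real.exp (-η) ^ N := by
    intro C N
    rw [← Real.exp_nat_mul, ← Real.exp_add]
    congr 1
    ring
  have hr1 : Real.exp (-η) < 1 := by
    rw [Real.exp_lt_one_iff]
    linarith
  rcases dichotomy (fun n => -Real.log (p n)) A (fun n => by rw [hS]; exact hA n) η hη M n₁ hno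
    with ⟨C, hC⟩ | ⟨C, hC⟩
  · left
    refine ⟨Real.exp C, Real.exp (-η), Real.exp_pos _, hr1, fun k N => ?_⟩
    have hpos : 0 < ∏ i ∈ Finset.range N, a (k + i) := Finset.prod_pos fun i _ => ha _
    rw [← hexp, ← Real.exp_log hpos, hprod]
    exact Real.exp_le_exp.mpr (hC k N)
  · right
    refine ⟨Real.exp C, Real.exp (-η), Real.exp_pos _, hr1, fun k N => ?_⟩
    have hpos : 0 < ∏ i ∈ Finset.range N, (a (k + i))⁻¹ :=
      Finset.prod_pos fun i _ => inv_pos.mpr (ha _)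
    rw [← hexp, ← Real.exp_log hpos, Finset.prod_inv_distrib, Real.log_inv, hprod]
    refine Real.exp_le_exp.mpr ?_
    have := hC k N
    linarith

include h in
theorem cond_of_psp (hP : PSP T) : HalfHyperbolic w := by
  classical
  obtain ⟨δ, hδ0, hδ⟩ := fix_shadow T hP
  obtain ⟨π, hπ0, hπ⟩ := h.exists_pi
  have hB := h.Bpos
  -- choose η
  obtain ⟨η, hη, hη2⟩ : ∃ η : ℝ, 0 < η ∧ Real.exp (2 * η) - 1 < δ / 16 := by
    have h1 : Tendsto (fun η : ℝ => Real.exp (2 * η) - 1) (𝓝 0) (𝓝 (Real.exp (2 * 0) - 1)) :=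
      (Continuous.tendsto (by fun_prop) 0)
    rw [mul_zero, Real.exp_zero, sub_self] at h1
    have h2 : ∀ᶠ η in 𝓝[>] (0 : ℝ), Real.exp (2 * η) - 1 < δ / 16 :=
      (h1.mono_left nhdsWithin_le_nhds).eventually_lt_const (by positivity)
    obtain ⟨η, h3, h4⟩ := (h2.and self_mem_nhdsWithin).exists
    exact ⟨η, h4, h3⟩
  obtain ⟨M, hM⟩ : ∃ M : ℕ, (1 + B) * Real.exp (-η * M) < δ / 16 := by
    have h1 : Tendsto (fun M : ℕ => (1 + B) * Real.exp (-η * M)) atTop (𝓝 ((1 + B) * 0)) := by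
      refine Tendsto.const_mul _ ?_
      refine Real.tendsto_exp_atBot.comp ?_
      refine Tendsto.const_mul_atTop_of_neg (by linarith) tendsto_natCast_atTop_atTop
    rw [mul_zero] at h1
    exact (h1.eventually_lt_const (by positivity)).exists
  have hMδ : Real.exp (2 * η) - 1 + (1 + B) * Real.exp (-η * M) < δ / 8 := by linarith
  -- choose n₁
  obtain ⟨n₁, hn₁, hn₁2⟩ : ∃ n₁ : ℕ, 1 ≤ n₁ ∧ ((∃ x : X, E.co x = π) → ∀ n : ℤ,
      (n₁ : ℤ) ≤ |n| → (2 * M + 1) * (‖π n‖ * Real.exp (η * M)) ≤ ‖π 0‖) := by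
    by_cases hx : ∃ x : X, E.co x = π
    · obtain ⟨x, hx⟩ := hx
      have h1 := E.tends x
      rw [hx] at h1
      have h2 : ∀ᶠ n in cofinite, ‖π n‖ < ‖π 0‖ / ((2 * M + 1) * Real.exp (η * M)) := by
        have := h1.norm
        rw [norm_zero] at this
        exact this.eventually_lt_const (div_pos (norm_pos_iff.mpr (hπ0 0)) (by positivity))
      rw [eventually_cofinite] at h2
      obtain ⟨N, hN⟩ := (h2.image Int.natAbs).bddAbove
      refine ⟨N + 1, by omega, fun _ n hn => ?_⟩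
      have h3 : ‖π n‖ < ‖π 0‖ / ((2 * M + 1) * Real.exp (η * M)) := by
        by_contra hcon
        have h4 := hN ⟨n, hcon, rfl⟩
        have h5 : |n| = (n.natAbs : ℤ) := Int.abs_eq_natAbs n
        omega
      rw [lt_div_iff₀ (by positivity)] at h3
      linarith
    · exact ⟨1, le_rfl, fun h => absurd h hx⟩
  -- the vector argument at an approximate maximum
  have key : ∀ n₀ : ℤ, ((n₁ + M : ℕ) : ℤ) ≤ |n₀| →
      (∀ m : ℤ, |(m : ℝ) - n₀| ≤ M → ‖π m‖ ≤ ‖π n₀‖ * Real.exp (η * |(m : ℝ) - n₀|)) →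
      False := by
    intro n₀ hn₀ hmax
    refine h.vector_contradiction hδ hπ0 hπ hη M n₀ hmax hMδ ?_ ?_
    · have h1 : (M : ℤ) < |n₀| := by push_cast at hn₀; omega
      have h2 : ((M : ℤ) : ℝ) < ((|n₀| : ℤ) : ℝ) := by exact_mod_cast h1
      rw [Int.cast_abs] at h2
      exact_mod_cast h2
    · intro hx
      have h1 := hn₁2 hx n₀ (by push_cast at hn₀; omega)
      refine le_trans ?_ h1
      have h2 : ∀ m ∈ Finset.Icc (n₀ - (M : ℤ)) (n₀ + M),
          ‖π m‖ ≤ ‖π n₀‖ * Real.exp (η * M) := by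
        intro m hm
        rw [Finset.mem_Icc] at hm
        have e1 : (n₀ : ℝ) - M ≤ m := by exact_mod_cast hm.1
        have e2 : (m : ℝ) ≤ n₀ + M := by exact_mod_cast hm.2
        have h3 : |(m : ℝ) - n₀| ≤ M := by
          rw [abs_le]; constructor <;> linarith
        refine (hmax m h3).trans ?_
        refine mul_le_mul_of_nonneg_left ?_ (norm_nonneg _)
        exact Real.exp_le_exp.mpr (mul_le_mul_of_nonneg_left h3 hη.le)
      refine (Finset.sum_le_sum h2).trans ?_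
      rw [Finset.sum_const, Int.card_Icc, nsmul_eq_mul]
      have h4 : (n₀ + (M : ℤ) + 1 - (n₀ - M)).toNat = 2 * M + 1 := by omega
      rw [h4]
      push_cast
      exact le_rfl
  have hlog : ∀ n, |Real.log ‖w n‖| ≤ |Real.log b| + |Real.log B| := by
    intro n
    have e1 : Real.log b ≤ Real.log ‖w n‖ := Real.log_le_log h.pos (h.low n)
    have e2 : Real.log ‖w n‖ ≤ Real.log B :=
      Real.log_le_log (lt_of_lt_of_le h.pos (h.low n)) (h.bdd n)
    rw [abs_le]
    constructor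
    · linarith [neg_abs_le (Real.log b), abs_nonneg (Real.log B)]
    · linarith [le_abs_self (Real.log B), abs_nonneg (Real.log b)]
  have hπpos : ∀ n, 0 < ‖π n‖ := fun n => norm_pos_iff.mpr (hπ0 n)
  have hwpos : ∀ n, 0 < ‖w n‖ := fun n => norm_pos_iff.mpr (h.ne n)
  have conv : ∀ (x y c : ℝ), 0 < x → 0 < y → -Real.log y - c ≤ -Real.log x →
      x ≤ y * Real.exp c := by
    intro x y c hx hy hxy
    have h1 : Real.log x ≤ Real.log y + c := by linarith
    rw [← Real.exp_log hx]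
    calc Real.exp (Real.log x) ≤ Real.exp (Real.log y + c) := Real.exp_le_exp.mpr h1
      _ = y * Real.exp c := by rw [Real.exp_add, Real.exp_log hy]
  constructor
  · -- right half
    refine unif_of (p := fun n => ‖π n‖) (a := fun n => ‖w (n + 1)‖) (fun n => hπpos n)
      (fun n => hwpos _) (fun n => ?_) (fun n => hlog _) hη M n₁ (fun n hn happ => ?_)
    · rw [← norm_mul, hπ n]
      push_cast
      rfl
    · refine key n ?_ ?_
      · rw [abs_of_nonneg (by positivity)]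
        exact_mod_cast hn
      · intro m hm
        rw [abs_le] at hm
        have e0 : (n₁ : ℝ) + M ≤ n := by exact_mod_cast hn
        push_cast at hm
        have e1 : (0 : ℝ) ≤ m := by linarith [hm.1, (Nat.cast_nonneg n₁ : (0 : ℝ) ≤ n₁)]
        obtain ⟨m', rfl⟩ := Int.eq_ofNat_of_zero_le (by exact_mod_cast e1 : 0 ≤ m)
        push_cast at hm
        have h1 := happ m' (by
          have : (m' : ℝ) ≤ n + M := by linarith [hm.2]
          exact_mod_cast this) (by
          have : (n : ℝ) ≤ m' + M := by linarith [hm.1]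
          exact_mod_cast this)
        have h2 := conv _ _ _ (hπpos _) (hπpos _) h1
        rw [abs_sub_comm] at h2
        exact_mod_cast h2
  · -- left half
    have := unif_of (p := fun n => ‖π (-n)‖) (a := fun n => ‖w (-n)‖⁻¹) (fun n => hπpos _)
      (fun n => inv_pos.mpr (hwpos _)) (fun n => ?_)
      (A := |Real.log b| + |Real.log B|) (fun n => by
        rw [Real.log_inv, abs_neg]; exact hlog _) hη M n₁ (fun n hn happ => ?_)
    · simp only [inv_inv] at this
      exact this.symm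
    · have h1 := hπ (-((n : ℤ) + 1))
      rw [show -((n : ℤ) + 1) + 1 = -n by ring] at h1
      push_cast
      rw [h1, norm_mul, ← mul_assoc, inv_mul_cancel₀ (hwpos _).ne', one_mul]
    · refine key (-n) ?_ ?_
      · rw [abs_neg, abs_of_nonneg (by positivity)]
        exact_mod_cast hn
      · intro m hm
        rw [abs_le] at hm
        have e0 : (n₁ : ℝ) + M ≤ n := by exact_mod_cast hn
        push_cast at hm
        have e1 : (0 : ℝ) ≤ -m := by linarith [hm.2, (Nat.cast_nonneg n₁ : (0 : ℝ) ≤ n₁)]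
        obtain ⟨m', hm'⟩ := Int.eq_ofNat_of_zero_le (by exact_mod_cast e1 : 0 ≤ -m)
        obtain rfl : m = -m' := by omega
        push_cast at hm
        have h1 := happ m' (by
          have : (m' : ℝ) ≤ n + M := by linarith [hm.1]
          exact_mod_cast this) (by
          have : (n : ℝ) ≤ m' + M := by linarith [hm.2]
          exact_mod_cast this)
        have h2 := conv _ _ _ (hπpos _) (hπpos _) h1
        have h3 : |((-m' : ℤ) : ℝ) - ((-n : ℤ) : ℝ)| = |(n : ℝ) - m'| := by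
          push_cast
          congr 1
          ring
        rw [h3]
        exact h2

theorem psp_iff [CompleteSpace X] (h : E.IsShift w T B b) : PSP T ↔ HalfHyperbolic w :=
  ⟨h.cond_of_psp, h.psp_of_cond⟩

end IsShift
end SeqSp


section instances

open scoped ENNReal ZeroAtInfty

theorem SeqSp.exists_shift {𝕜 X : Type*} [RCLike 𝕜] [NormedAddCommGroup X] [NormedSpace 𝕜 X]
    (E : SeqSp 𝕜 X) (w : ℤ → 𝕜) {B b : ℝ} (hB : ∀ n, ‖w n‖ ≤ B) (hb0 : 0 < b)
    (hb : ∀ n, b ≤ ‖w n‖) : ∃ T : X ≃L[𝕜] X, E.IsShift w T B b := by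
  have hw : ∀ n, w n ≠ 0 := by
    intro n h0
    have h1 := hb n
    rw [h0, norm_zero] at h1
    exact absurd hb0 (not_lt.mpr h1)
  obtain ⟨D1, hD1⟩ := E.exists_op (fun n => w (n + 1)) (fun n => hB _) 1
  obtain ⟨D2, hD2⟩ := E.exists_op (fun n => (w n)⁻¹) (C := b⁻¹) (fun n => by
    rw [norm_inv]; exact inv_anti₀ hb0 (hb n)) (-1)
  refine ⟨ContinuousLinearEquiv.equivOfInverse D1 D2 ?_ ?_, hB, hb, hb0, fun x n => hD1 x n⟩
  · intro x
    apply E.inj
    ext n
    rw [hD2, hD1, show n + -1 + 1 = n by ring, ← mul_assoc, inv_mul_cancel₀ (hw n), one_mul]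
  · intro x
    apply E.inj
    ext n
    rw [hD1, hD2, show n + 1 + -1 = n by ring, ← mul_assoc, mul_inv_cancel₀ (hw _), one_mul]

theorem lp_memlp_shift {𝕜 : Type*} [RCLike 𝕜] {p : ℝ≥0∞} (hp : 0 < p.toReal)
    (x : lp (fun _ : ℤ => 𝕜) p) (k : ℤ) : Memℓp (fun n => x (n + k)) p := by
  rw [memℓp_gen_iff hp]
  have h1 := (lp.memℓp x).summable hp
  exact (Equiv.addRight k).summable_iff.mpr h1

/-- `ℓ_p(ℤ)`, `1 ≤ p < ∞`, as a solid shift-invariant sequence space -/
noncomputable def lpSeq (𝕜 : Type*) [RCLike 𝕜] (p : ℝ≥0∞) [hp1 : Fact (1 ≤ p)] (hp : p ≠ ∞) :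
    SeqSp 𝕜 (lp (fun _ : ℤ => 𝕜) p) where
  co :=
    { toFun := fun x => (x : ∀ _ : ℤ, 𝕜)
      map_add' := fun x y => lp.coeFn_add x y
      map_smul' := fun c x => lp.coeFn_smul c x }
  inj := fun x y h => lp.ext h
  coord_le := fun x n => lp.norm_apply_le_norm (zero_lt_one.trans_le hp1.out).ne' x n
  solid := by
    intro x y hy
    have hp0 : 0 < p := zero_lt_one.trans_le hp1.out
    have hmem : Memℓp y p := (lp.memℓp x).mono' (fun n => hy n)
    refine ⟨⟨y, hmem⟩, rfl, ?_⟩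
    exact lp.norm_mono hp0.ne' (fun n => hy n)
  shift := by
    intro x k
    have hp0 : 0 < p.toReal := ENNReal.toReal_pos (zero_lt_one.trans_le hp1.out).ne' hp
    refine ⟨⟨_, lp_memlp_shift hp0 x k⟩, fun n => rfl, ?_⟩
    rw [lp.norm_eq_tsum_rpow hp0, lp.norm_eq_tsum_rpow hp0]
    refine le_of_eq ?_
    congr 1
    exact (Equiv.addRight k).tsum_eq (fun n => ‖x n‖ ^ p.toReal)
  single := by
    intro n
    refine ⟨lp.single (E := fun _ : ℤ => 𝕜) p n 1, ?_, ?_⟩
    · ext m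
      change lp.single (E := fun _ : ℤ => 𝕜) p n 1 m = _
      rw [lp.coeFn_single]
    · rw [lp.norm_single (zero_lt_one.trans_le hp1.out), norm_one]
  tends := by
    intro x
    have hp0 : 0 < p.toReal := ENNReal.toReal_pos (zero_lt_one.trans_le hp1.out).ne' hp
    have h1 := ((lp.memℓp x).summable hp0).tendsto_cofinite_zero
    rw [tendsto_zero_iff_norm_tendsto_zero]
    have h2 := h1.rpow_const (p := p.toReal⁻¹) (Or.inr (inv_nonneg.mpr hp0.le))
    rw [Real.zero_rpow (inv_pos.mpr hp0).ne'] at h2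
    refine h2.congr fun n => ?_
    rw [Real.rpow_rpow_inv (norm_nonneg _) hp0.ne']
    rfl

/-- `c_0(ℤ)` as a solid shift-invariant sequence space -/
noncomputable def c0Seq (𝕜 : Type*) [RCLike 𝕜] : SeqSp 𝕜 (C₀(ℤ, 𝕜)) where
  co :=
    { toFun := fun x => (x : ℤ → 𝕜)
      map_add' := fun x y => rfl
      map_smul' := fun c x => rfl }
  inj := fun x y h => DFunLike.coe_injective h
  coord_le := fun x n => by
    rw [← ZeroAtInftyContinuousMap.norm_toBCF_eq_norm]
    exact x.toBCF.norm_coe_le_norm n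
  solid := by
    intro x y hy
    have h0 : Tendsto y (cocompact ℤ) (𝓝 0) := by
      rw [tendsto_zero_iff_norm_tendsto_zero]
      refine squeeze_zero (fun n => norm_nonneg _) hy ?_
      exact tendsto_zero_iff_norm_tendsto_zero.mp (zero_at_infty x)
    refine ⟨⟨⟨y, continuous_of_discreteTopology⟩, h0⟩, rfl, ?_⟩
    rw [← ZeroAtInftyContinuousMap.norm_toBCF_eq_norm, BoundedContinuousFunction.norm_le
      (norm_nonneg _)]
    intro n
    refine (hy n).trans ?_
    rw [← ZeroAtInftyContinuousMap.norm_toBCF_eq_norm]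
    exact x.toBCF.norm_coe_le_norm n
  shift := by
    intro x k
    have h0 : Tendsto (fun n => x (n + k)) (cocompact ℤ) (𝓝 0) := by
      rw [Filter.cocompact_eq_cofinite]
      have h1 := zero_at_infty x
      rw [Filter.cocompact_eq_cofinite] at h1
      exact h1.comp (Equiv.addRight k).injective.tendsto_cofinite
    refine ⟨⟨⟨fun n => x (n + k), continuous_of_discreteTopology⟩, h0⟩, fun n => rfl, ?_⟩
    rw [← ZeroAtInftyContinuousMap.norm_toBCF_eq_norm, BoundedContinuousFunction.norm_le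
      (norm_nonneg _)]
    intro n
    rw [← ZeroAtInftyContinuousMap.norm_toBCF_eq_norm]
    exact x.toBCF.norm_coe_le_norm (n + k)
  single := by
    intro n
    have h0 : Tendsto (Pi.single n (1 : 𝕜) : ℤ → 𝕜) (cocompact ℤ) (𝓝 0) := by
      rw [Filter.cocompact_eq_cofinite]
      refine tendsto_nhds_of_eventually_eq ?_
      rw [eventually_cofinite]
      refine (Set.finite_singleton n).subset ?_
      intro m hm
      by_contra hne
      exact hm (Pi.single_eq_of_ne hne _)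
    refine ⟨⟨⟨Pi.single n 1, continuous_of_discreteTopology⟩, h0⟩, rfl, ?_⟩
    rw [← ZeroAtInftyContinuousMap.norm_toBCF_eq_norm, BoundedContinuousFunction.norm_le
      zero_le_one]
    intro m
    change ‖(Pi.single n (1 : 𝕜) : ℤ → 𝕜) m‖ ≤ 1
    rw [Pi.single_apply]
    split_ifs <;> simp
  tends := by
    intro x
    have h1 := zero_at_infty x
    rwa [Filter.cocompact_eq_cofinite] at h1

end instances

end Pool.Agent.LibPSP
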